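import Pool.Agent.Lib.MP_087bf0.Count

namespace MP087bf0

open Finset MeasureTheory ENNReal Filter Topology

variable {d n : ℕ}

lemma one_add_sq_half_le_cosh (x : ℝ) : 1 + x ^ 2 / 2 ≤ Real.cosh x := by
  have h1 : Real.cosh x = 1 + 2 * Real.sinh (x / 2) ^ 2 := by
    have h2 := Real.cosh_two_mul (x / 2)
    have h3 := Real.cosh_sq (x / 2)
    have e : 2 * (x / 2) = x := by ring
    rw [e] at h2
    rw [h2, h3]; ring
  have h4 : (x / 2) ^ 2 ≤ Real.sinh (x / 2) ^ 2 := by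
    rw [sq_le_sq]
    rcases le_total 0 (x / 2) with h | h
    · have := Real.self_le_sinh_iff.mpr h
      rw [abs_of_nonneg h, abs_of_nonneg (h.trans this)]; exact this
    · have := Real.sinh_le_self_iff.mpr h
      rw [abs_of_nonpos h, abs_of_nonpos (this.trans h)]; linarith
  rw [h1]; nlinarith

lemma lH_eq (t : ℝ) : 2 * lH t = (Real.cosh (t / 2))⁻¹ := by
  unfold lH
  rw [Real.cosh_eq]
  field_simp

lemma two_lH_pos (t : ℝ) : 0 < 2 * lH t := by have := lH_pos t; linarith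

lemma two_lH_le_one (t : ℝ) : 2 * lH t ≤ 1 := by
  rw [lH_eq]; exact inv_le_one_of_one_le₀ (Real.one_le_cosh _)

lemma rpow_bound (τ : ℝ) (h0 : 0 < τ) (h1 : τ ≤ 1) (t : ℝ) :
    (2 * lH t) ^ (1 / τ) ≤ (1 + (t / Real.sqrt (8 * τ)) ^ 2)⁻¹ := by
  rw [lH_eq, Real.inv_rpow (Real.cosh_pos _).le]
  refine inv_anti₀ (by positivity) ?_
  have h2 : 1 + t ^ 2 / 8 ≤ Real.cosh (t / 2) := by
    have := one_add_sq_half_le_cosh (t / 2)
    nlinarith
  have h3 : (1 + t ^ 2 / 8) ^ (1 / τ) ≤ Real.cosh (t / 2) ^ (1 / τ) :=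
    Real.rpow_le_rpow (by positivity) h2 (by positivity)
  refine le_trans ?_ h3
  have h4 : 1 ≤ 1 / τ := by rw [le_div_iff₀ h0]; linarith
  have h5 := one_add_mul_self_le_rpow_one_add (s := t ^ 2 / 8) (by nlinarith [sq_nonneg t]) h4
  refine le_trans (le_of_eq ?_) h5
  rw [div_pow, Real.sq_sqrt (by positivity)]
  field_simp

lemma lintegral_rpow_bound (τ : ℝ) (h0 : 0 < τ) (h1 : τ ≤ 1) :
    ∫⁻ t, ENNReal.ofReal ((2 * lH t) ^ (1 / τ)) ≤ ENNReal.ofReal (Real.sqrt 8 * Real.pi * Real.sqrt τ) := by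
  have hs : 0 < Real.sqrt (8 * τ) := Real.sqrt_pos.mpr (by positivity)
  calc ∫⁻ t, ENNReal.ofReal ((2 * lH t) ^ (1 / τ))
      ≤ ∫⁻ t, ENNReal.ofReal ((1 + (t / Real.sqrt (8 * τ)) ^ 2)⁻¹) :=
        lintegral_mono fun t => ENNReal.ofReal_le_ofReal (rpow_bound τ h0 h1 t)
    _ = ENNReal.ofReal (∫ t, (1 + (t / Real.sqrt (8 * τ)) ^ 2)⁻¹) := by
        rw [ofReal_integral_eq_lintegral_ofReal]
        · exact integrable_inv_one_add_sq.comp_div hs.ne'
        · exact Eventually.of_forall fun t => by positivity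
    _ = ENNReal.ofReal (Real.sqrt 8 * Real.pi * Real.sqrt τ) := by
        congr 1
        rw [MeasureTheory.Measure.integral_comp_div (fun x : ℝ => (1 + x ^ 2)⁻¹)]
        rw [integral_univ_inv_one_add_sq, abs_of_pos hs, Real.sqrt_mul (by norm_num), smul_eq_mul]
        ring

/-- the determinantal weights -/
noncomputable def Dt (w : Fin n → Fin d → ℝ) : ℝ := ∑ s : Fin d → Fin n, |(Wm w s).det|

noncomputable def pw (w : Fin n → Fin d → ℝ) (s : Fin d → Fin n) : ℝ := |(Wm w s).det| / Dt w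

noncomputable def tau (w : Fin n → Fin d → ℝ) (i : Fin n) : ℝ :=
  ∑ s : Fin d → Fin n, pw w s * ∑ j, (if s j = i then 1 else 0)

lemma Dt_pos (w : Fin n → Fin d → ℝ) (hspan : ∃ s : Fin d → Fin n, (Wm w s).det ≠ 0) : 0 < Dt w := by
  obtain ⟨s, hs⟩ := hspan
  exact Finset.sum_pos' (fun _ _ => abs_nonneg _) ⟨s, Finset.mem_univ _, abs_pos.mpr hs⟩

lemma pw_nonneg (w : Fin n → Fin d → ℝ) (s) : 0 ≤ pw w s :=
  div_nonneg (abs_nonneg _) (Finset.sum_nonneg fun _ _ => abs_nonneg _)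

lemma pw_sum (w : Fin n → Fin d → ℝ) (hspan : ∃ s : Fin d → Fin n, (Wm w s).det ≠ 0) :
    ∑ s, pw w s = 1 := by
  unfold pw
  rw [← Finset.sum_div]
  exact div_self (Dt_pos w hspan).ne'

lemma swap (w : Fin n → Fin d → ℝ) (φ : Fin n → ℝ) :
    ∑ s, pw w s * ∑ j, φ (s j) = ∑ i, φ i * tau w i := by
  unfold tau
  have h1 : ∀ i, φ i * ∑ s : Fin d → Fin n, pw w s * ∑ j, (if s j = i then (1:ℝ) else 0)
      = ∑ s : Fin d → Fin n, pw w s * ∑ j, (if s j = i then φ i else 0) := by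
    intro i
    rw [Finset.mul_sum]
    refine Finset.sum_congr rfl fun s _ => ?_
    rw [mul_left_comm, Finset.mul_sum]
    congr 1
    refine Finset.sum_congr rfl fun j _ => ?_
    split_ifs <;> simp
  simp_rw [h1]
  rw [Finset.sum_comm]
  refine Finset.sum_congr rfl fun s _ => ?_
  rw [← Finset.mul_sum]
  congr 1
  rw [Finset.sum_comm]
  refine Finset.sum_congr rfl fun j _ => ?_
  rw [Finset.sum_ite_eq]
  simp

lemma tau_nonneg (w : Fin n → Fin d → ℝ) (i) : 0 ≤ tau w i :=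
  Finset.sum_nonneg fun s _ => mul_nonneg (pw_nonneg w s) (Finset.sum_nonneg fun j _ => by split_ifs <;> norm_num)

lemma tau_sum (w : Fin n → Fin d → ℝ) (hspan : ∃ s : Fin d → Fin n, (Wm w s).det ≠ 0) :
    ∑ i, tau w i = d := by
  have := swap w (fun _ => 1)
  simp only [one_mul] at this
  rw [← this]
  simp only [Finset.sum_const, Finset.card_univ, Fintype.card_fin, nsmul_eq_mul, mul_one]
  rw [← Finset.sum_mul, pw_sum w hspan, one_mul]

lemma tau_le_one (w : Fin n → Fin d → ℝ) (hspan : ∃ s : Fin d → Fin n, (Wm w s).det ≠ 0) (i) :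
    tau w i ≤ 1 := by
  unfold tau
  refine le_trans ?_ (pw_sum w hspan).le
  refine Finset.sum_le_sum fun s _ => ?_
  by_cases hs : (Wm w s).det = 0
  · have : pw w s = 0 := by unfold pw; rw [hs, abs_zero, zero_div]
    rw [this, zero_mul]
  · have hinj := inj_of_det w s hs
    have h1 : ∑ j, (if s j = i then (1:ℝ) else 0) ≤ 1 := by
      rw [Finset.sum_ite, Finset.sum_const, Finset.sum_const_zero, add_zero, nsmul_eq_mul, mul_one]
      have : (univ.filter fun j => s j = i).card ≤ 1 := by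
        rw [Finset.card_le_one]
        intro a ha b hb
        simp only [Finset.mem_filter, Finset.mem_univ, true_and] at ha hb
        exact hinj (ha.trans hb.symm)
      exact_mod_cast this
    calc _ ≤ pw w s * 1 := mul_le_mul_of_nonneg_left h1 (pw_nonneg w s)
      _ = pw w s := mul_one _

lemma tau_pos (w : Fin n → Fin d → ℝ) (hspan : ∃ s : Fin d → Fin n, (Wm w s).det ≠ 0)
    (s : Fin d → Fin n) (hs : (Wm w s).det ≠ 0) (j : Fin d) : 0 < tau w (s j) := by
  unfold tau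
  refine Finset.sum_pos' (fun s' _ => mul_nonneg (pw_nonneg w s')
    (Finset.sum_nonneg fun j _ => by split_ifs <;> norm_num)) ⟨s, Finset.mem_univ _, ?_⟩
  refine mul_pos (div_pos (abs_pos.mpr hs) (Dt_pos w hspan)) ?_
  exact Finset.sum_pos' (fun j _ => by split_ifs <;> norm_num) ⟨j, Finset.mem_univ _, by simp⟩

/-- pointwise weighted AM-GM -/
lemma amgm (w : Fin n → Fin d → ℝ) (hspan : ∃ s : Fin d → Fin n, (Wm w s).det ≠ 0)
    (t : Fin n → ℝ) :
    ∏ i, (2 * lH (t i)) ≤ ∑ s, pw w s * ∏ j, (2 * lH (t (s j))) ^ (1 / tau w (s j)) := by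
  have hpos : ∀ i, 0 < 2 * lH (t i) := fun i => two_lH_pos _
  let φ : Fin n → ℝ := fun i => (1 / tau w i) * Real.log (2 * lH (t i))
  have h1 : ∏ i, (2 * lH (t i)) = Real.exp (∑ i, Real.log (2 * lH (t i))) := by
    rw [Real.exp_sum]
    exact Finset.prod_congr rfl fun i _ => (Real.exp_log (hpos i)).symm
  have h2 : ∑ i, Real.log (2 * lH (t i)) ≤ ∑ s, pw w s * ∑ j, φ (s j) := by
    rw [swap]
    refine Finset.sum_le_sum fun i _ => ?_
    have hle : Real.log (2 * lH (t i)) ≤ 0 := Real.log_nonpos (hpos i).le (two_lH_le_one _)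
    simp only [φ]
    rcases (tau_nonneg w i).eq_or_lt with h | h
    · rw [← h, mul_zero]; exact hle
    · rw [mul_right_comm, one_div_mul_cancel h.ne', one_mul]
  have h3 : ∏ s : Fin d → Fin n, (Real.exp (∑ j, φ (s j))) ^ (pw w s)
      ≤ ∑ s, pw w s * Real.exp (∑ j, φ (s j)) :=
    Real.geom_mean_le_arith_mean_weighted _ _ _ (fun s _ => pw_nonneg w s) (pw_sum w hspan)
      (fun s _ => (Real.exp_pos _).le)
  have h4 : ∏ s : Fin d → Fin n, (Real.exp (∑ j, φ (s j))) ^ (pw w s)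
      = Real.exp (∑ s, pw w s * ∑ j, φ (s j)) := by
    rw [Real.exp_sum]
    refine Finset.prod_congr rfl fun s _ => ?_
    rw [← Real.exp_mul, mul_comm]
  calc ∏ i, (2 * lH (t i)) = Real.exp (∑ i, Real.log (2 * lH (t i))) := h1
    _ ≤ Real.exp (∑ s, pw w s * ∑ j, φ (s j)) := Real.exp_le_exp.mpr h2
    _ ≤ ∑ s, pw w s * Real.exp (∑ j, φ (s j)) := by rw [← h4]; exact h3
    _ = _ := by
      refine Finset.sum_congr rfl fun s _ => ?_
      rw [Real.exp_sum]
      congr 1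
      refine Finset.prod_congr rfl fun j _ => ?_
      simp only [φ]
      rw [mul_comm, Real.exp_mul, Real.exp_log (hpos _)]

/-- the product bound -/
theorem prodBound (w : Fin n → Fin d → ℝ) (hspan : ∃ s : Fin d → Fin n, (Wm w s).det ≠ 0) :
    ENNReal.ofReal (Dt w) * ∫⁻ l : Fin d → ℝ, ENNReal.ofReal (∏ i, (2 * lH (w i ⬝ᵥ l)))
      ≤ ENNReal.ofReal ((Real.sqrt 8 * Real.pi * Real.sqrt (n * d)) ^ d) := by
  have hD := Dt_pos w hspan
  let g : Fin n → ℝ → ℝ≥0∞ := fun i x => ENNReal.ofReal ((2 * lH x) ^ (1 / tau w i))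
  have hgm : ∀ i, Measurable (g i) := by
    intro i
    refine Measurable.ennreal_ofReal ?_
    refine Continuous.measurable ?_
    refine Continuous.rpow_const (continuous_const.mul lH_cont) fun x => Or.inl (two_lH_pos x).ne'
  have hterm : ∀ s : Fin d → Fin n, ENNReal.ofReal |(Wm w s).det| *
      ∫⁻ l : Fin d → ℝ, ∏ j, g (s j) (w (s j) ⬝ᵥ l)
      ≤ ∏ j, ENNReal.ofReal (Real.sqrt 8 * Real.pi * Real.sqrt (tau w (s j))) := by
    intro s
    by_cases hs : (Wm w s).det = 0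
    · rw [hs, abs_zero, ENNReal.ofReal_zero, zero_mul]; exact zero_le
    · have h1 := lintegral_mulVec (Wm w s) hs (fun y => ∏ j, g (s j) (y j))
        (Finset.measurable_fun_prod _ fun j _ => (hgm (s j)).comp (measurable_pi_apply j))
      have h2 : ∀ l, (∏ j, g (s j) ((Wm w s).mulVec l j)) = ∏ j, g (s j) (w (s j) ⬝ᵥ l) := fun l => rfl
      simp only [h2] at h1
      rw [← h1, lintegral_fin_prod (fun j => g (s j)) (fun j => hgm _)]
      exact Finset.prod_le_prod' fun j _ =>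
        lintegral_rpow_bound _ (tau_pos w hspan s hs j) (tau_le_one w hspan _)
  have hpt : ∀ l : Fin d → ℝ, ENNReal.ofReal (Dt w) * ENNReal.ofReal (∏ i, (2 * lH (w i ⬝ᵥ l)))
      ≤ ∑ s, ENNReal.ofReal |(Wm w s).det| * ∏ j, g (s j) (w (s j) ⬝ᵥ l) := by
    intro l
    rw [← ENNReal.ofReal_mul hD.le]
    have h1 := amgm w hspan (fun i => w i ⬝ᵥ l)
    have h2 : Dt w * ∏ i, (2 * lH (w i ⬝ᵥ l)) ≤
        ∑ s, |(Wm w s).det| * ∏ j, (2 * lH (w (s j) ⬝ᵥ l)) ^ (1 / tau w (s j)) := by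
      calc _ ≤ Dt w * ∑ s, pw w s * ∏ j, (2 * lH (w (s j) ⬝ᵥ l)) ^ (1 / tau w (s j)) :=
            mul_le_mul_of_nonneg_left h1 hD.le
        _ = _ := by
          rw [Finset.mul_sum]
          refine Finset.sum_congr rfl fun s _ => ?_
          rw [← mul_assoc]
          congr 1
          unfold pw
          rw [mul_div_cancel₀ _ hD.ne']
    refine (ENNReal.ofReal_le_ofReal h2).trans ?_
    rw [ENNReal.ofReal_sum_of_nonneg]
    · refine Finset.sum_le_sum fun s _ => ?_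
      rw [ENNReal.ofReal_mul (abs_nonneg _), ENNReal.ofReal_prod_of_nonneg]
      exact fun j _ => Real.rpow_nonneg (two_lH_pos _).le _
    · exact fun s _ => mul_nonneg (abs_nonneg _)
        (Finset.prod_nonneg fun j _ => Real.rpow_nonneg (two_lH_pos _).le _)
  have hmeas : ∀ s : Fin d → Fin n, Measurable fun l : Fin d → ℝ => ∏ j, g (s j) (w (s j) ⬝ᵥ l) := by
    intro s
    refine Finset.measurable_fun_prod _ fun j _ => (hgm (s j)).comp ?_
    have : Continuous fun l : Fin d → ℝ => w (s j) ⬝ᵥ l := by fun_prop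
    exact this.measurable
  have hcs : ∑ i, Real.sqrt (tau w i) ≤ Real.sqrt (n * d) := by
    refine Real.le_sqrt_of_sq_le ?_
    have h1 := sq_sum_le_card_mul_sum_sq (s := (univ : Finset (Fin n))) (f := fun i => Real.sqrt (tau w i))
    simp only [Real.sq_sqrt (tau_nonneg w _), Finset.card_univ, Fintype.card_fin, tau_sum w hspan] at h1
    exact h1
  calc ENNReal.ofReal (Dt w) * ∫⁻ l : Fin d → ℝ, ENNReal.ofReal (∏ i, (2 * lH (w i ⬝ᵥ l)))
      = ∫⁻ l : Fin d → ℝ, ENNReal.ofReal (Dt w) * ENNReal.ofReal (∏ i, (2 * lH (w i ⬝ᵥ l))) := by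
        rw [lintegral_const_mul' _ _ ENNReal.ofReal_ne_top]
    _ ≤ ∫⁻ l : Fin d → ℝ, ∑ s, ENNReal.ofReal |(Wm w s).det| * ∏ j, g (s j) (w (s j) ⬝ᵥ l) :=
        lintegral_mono hpt
    _ = ∑ s, ENNReal.ofReal |(Wm w s).det| * ∫⁻ l : Fin d → ℝ, ∏ j, g (s j) (w (s j) ⬝ᵥ l) := by
        rw [lintegral_finsetSum' univ]
        · exact Finset.sum_congr rfl fun s _ => lintegral_const_mul _ (hmeas s)
        · exact fun s _ => ((hmeas s).const_mul _).aemeasurable
    _ ≤ ∑ s : Fin d → Fin n, ∏ j, ENNReal.ofReal (Real.sqrt 8 * Real.pi * Real.sqrt (tau w (s j))) :=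
        Finset.sum_le_sum fun s _ => hterm s
    _ = (∑ i, ENNReal.ofReal (Real.sqrt 8 * Real.pi * Real.sqrt (tau w i))) ^ d := by
        have := (Finset.prod_univ_sum (fun _ : Fin d => (univ : Finset (Fin n)))
          (fun _ i => ENNReal.ofReal (Real.sqrt 8 * Real.pi * Real.sqrt (tau w i)))).symm
        simp only [Fintype.piFinset_univ, Finset.prod_const, Finset.card_univ, Fintype.card_fin] at this
        exact this
    _ = ENNReal.ofReal ((Real.sqrt 8 * Real.pi * ∑ i, Real.sqrt (tau w i)) ^ d) := by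
        rw [ENNReal.ofReal_pow (by positivity), Finset.mul_sum, ENNReal.ofReal_sum_of_nonneg]
        exact fun i _ => by positivity
    _ ≤ _ := by
        refine ENNReal.ofReal_le_ofReal ?_
        refine pow_le_pow_left₀ (by positivity) ?_ d
        exact mul_le_mul_of_nonneg_left hcs (by positivity)

/-- the counting bound for spanning systems -/
theorem span_bound (w : Fin n → Fin d → ℝ) (hw : ∀ i, w i ⬝ᵥ w i ≤ 1)
    (hspan : ∃ s : Fin d → Fin n, (Wm w s).det ≠ 0) :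
    (d.factorial : ℝ) * 2 ^ n ≤ (GoodSet w).card * (Real.sqrt 8 * Real.pi * Real.sqrt (n * d)) ^ d := by
  have h1 := count w hw hspan
  have h2 := prodBound w hspan
  have h3 : ∫⁻ l : Fin d → ℝ, ENNReal.ofReal (∏ i, (2 * lH (w i ⬝ᵥ l)))
      = 2 ^ n * ∫⁻ l : Fin d → ℝ, ∏ i, ENNReal.ofReal (lH (w i ⬝ᵥ l)) := by
    rw [← lintegral_const_mul' _ _ (by finiteness)]
    refine lintegral_congr fun l => ?_
    rw [Finset.prod_mul_distrib, Finset.prod_const, Finset.card_univ, Fintype.card_fin,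
      ENNReal.ofReal_mul (by positivity), ENNReal.ofReal_prod_of_nonneg (fun i _ => (lH_pos _).le)]
    congr 1
    rw [ENNReal.ofReal_pow (by norm_num)]
    norm_num
  rw [h3] at h2
  have h4 : ∑ s : Fin d → Fin n, ENNReal.ofReal |(Wm w s).det| = ENNReal.ofReal (Dt w) := by
    unfold Dt
    rw [ENNReal.ofReal_sum_of_nonneg (fun s _ => abs_nonneg _)]
  rw [h4] at h1
  have h5 : ENNReal.ofReal ((d.factorial : ℝ) * 2 ^ n)
      ≤ ENNReal.ofReal ((GoodSet w).card * (Real.sqrt 8 * Real.pi * Real.sqrt (n * d)) ^ d) := by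
    rw [ENNReal.ofReal_mul (by positivity), ENNReal.ofReal_mul (by positivity),
      ENNReal.ofReal_natCast, ENNReal.ofReal_natCast, ENNReal.ofReal_pow (by norm_num)]
    have e2 : ENNReal.ofReal 2 = 2 := by norm_num
    rw [e2]
    calc (d.factorial : ℝ≥0∞) * 2 ^ n ≤ ((GoodSet w).card * ENNReal.ofReal (Dt w) *
          ∫⁻ l : Fin d → ℝ, ∏ i, ENNReal.ofReal (lH (w i ⬝ᵥ l))) * 2 ^ n := by gcongr
      _ = (GoodSet w).card * (ENNReal.ofReal (Dt w) *
          (2 ^ n * ∫⁻ l : Fin d → ℝ, ∏ i, ENNReal.ofReal (lH (w i ⬝ᵥ l)))) := by ring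
      _ ≤ _ := by gcongr
  exact (ENNReal.ofReal_le_ofReal_iff (by positivity)).mp h5

end MP087bf0
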