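import Pool.Agent.Lib.MP_087bf0.Cover

namespace MP087bf0

open Finset MeasureTheory ENNReal Filter Topology

/-- logistic density -/
noncomputable def lf (t : ℝ) : ℝ := Real.exp (-t) / (1 + Real.exp (-t)) ^ 2
/-- tilted sign probabilities -/
noncomputable def lG (b : Bool) (t : ℝ) : ℝ := 1 / (1 + Real.exp (sg b * t))
/-- `1/(2 cosh (t/2))` -/
noncomputable def lH (t : ℝ) : ℝ := 1 / (Real.exp (t / 2) + Real.exp (-(t / 2)))

lemma lf_pos (t : ℝ) : 0 < lf t := by unfold lf; positivity
lemma lG_pos (b : Bool) (t : ℝ) : 0 < lG b t := by unfold lG; positivity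
lemma lH_pos (t : ℝ) : 0 < lH t := by unfold lH; positivity

lemma lf_cont : Continuous lf := by
  unfold lf
  refine Continuous.div (by fun_prop) (by fun_prop) fun t => ?_
  positivity
lemma lG_cont (b : Bool) : Continuous (lG b) := by
  unfold lG
  refine Continuous.div (by fun_prop) (by fun_prop) fun t => ?_
  positivity
lemma lH_cont : Continuous lH := by
  unfold lH
  refine Continuous.div (by fun_prop) (by fun_prop) fun t => ?_
  positivity

lemma lf_neg (t : ℝ) : lf (-t) = lf t := by
  unfold lf
  rw [neg_neg, Real.exp_neg]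
  have := Real.exp_pos t
  field_simp
  ring

lemma lf_eq (t : ℝ) : lf t = lH t * lH t := by
  unfold lf lH
  have h1 : Real.exp (-t) = Real.exp (-(t/2)) * Real.exp (-(t/2)) := by
    rw [← Real.exp_add]; congr 1; ring
  have h2 : Real.exp (t/2) * Real.exp (-(t/2)) = 1 := by
    rw [← Real.exp_add]; simp
  have hp := Real.exp_pos (t/2)
  have hq := Real.exp_pos (-(t/2))
  rw [h1]
  set a := Real.exp (t/2)
  set b := Real.exp (-(t/2))
  rw [div_mul_div_comm, div_eq_div_iff (by positivity) (by positivity)]
  have : (a + b) * b = 1 + b * b := by rw [add_mul, h2]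
  calc b * b * ((a + b) * (a + b)) = ((a + b) * b) * ((a+b) * b) := by ring
    _ = _ := by rw [this]; ring

lemma lG_eq (b : Bool) (t : ℝ) : lG b t = lH t * Real.exp (-(sg b * t / 2)) := by
  have key : ∀ t : ℝ, 1 / (1 + Real.exp t) = lH t * Real.exp (-(t / 2)) := by
    intro t
    unfold lH
    have h1 : Real.exp t = Real.exp (t/2) * Real.exp (t/2) := by
      rw [← Real.exp_add]; congr 1; ring
    have h2 : Real.exp (t/2) * Real.exp (-(t/2)) = 1 := by
      rw [← Real.exp_add]; simp
    have hp := Real.exp_pos (t/2)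
    have hq := Real.exp_pos (-(t/2))
    rw [h1]
    set a := Real.exp (t/2)
    set b := Real.exp (-(t/2))
    rw [one_div_mul_eq_div, div_eq_div_iff (by positivity) (by positivity)]
    calc 1 * (a + b) = 1 * a + b := by ring
      _ = (a * b) * a + b := by rw [h2]
      _ = _ := by ring
  have hsym : lH (-t) = lH t := by
    unfold lH; rw [neg_div, neg_neg, add_comm]
  rcases sg_cases b with h | h
  · rw [lG, h, one_mul, key]
  · rw [lG, h, neg_one_mul, key, hsym]

lemma hasDerivAt_logistic (t : ℝ) :
    HasDerivAt (fun t : ℝ => (1 + Real.exp (-t))⁻¹) (lf t) t := by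
  have h1 : HasDerivAt (fun t : ℝ => 1 + Real.exp (-t)) (-Real.exp (-t)) t := by
    have := ((hasDerivAt_neg t).exp).const_add 1
    simpa using this
  have h2 := h1.inv (by positivity)
  have h3 : lf t = -(-Real.exp (-t)) / (1 + Real.exp (-t)) ^ 2 := by
    unfold lf
    ring
  rw [h3]
  exact h2

lemma tendsto_logistic : Tendsto (fun t : ℝ => (1 + Real.exp (-t))⁻¹) atTop (𝓝 1) := by
  have h1 : Tendsto (fun t : ℝ => Real.exp (-t)) atTop (𝓝 0) :=
    Real.tendsto_exp_atBot.comp tendsto_neg_atTop_atBot
  have h2 : Tendsto (fun t : ℝ => (1 + Real.exp (-t))⁻¹) atTop (𝓝 (1 + 0)⁻¹) :=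
    (tendsto_const_nhds.add h1).inv₀ (by norm_num)
  simpa using h2

lemma lintegral_Ioi_lf (t : ℝ) : ∫⁻ c in Set.Ioi t, ENNReal.ofReal (lf c) = ENNReal.ofReal (lG true t) := by
  have hint : IntegrableOn lf (Set.Ioi t) :=
    integrableOn_Ioi_deriv_of_nonneg' (fun x _ => hasDerivAt_logistic x) (fun x _ => (lf_pos x).le)
      tendsto_logistic
  have hval : ∫ x in Set.Ioi t, lf x = 1 - (1 + Real.exp (-t))⁻¹ :=
    integral_Ioi_of_hasDerivAt_of_nonneg' (fun x _ => hasDerivAt_logistic x)
      (fun x _ => (lf_pos x).le) tendsto_logistic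
  rw [← ofReal_integral_eq_lintegral_ofReal hint (Eventually.of_forall fun x => (lf_pos x).le), hval]
  congr 1
  unfold lG sg
  simp only [if_true, one_mul]
  have h2 : Real.exp t * Real.exp (-t) = 1 := by rw [← Real.exp_add]; simp
  have hp := Real.exp_pos t
  have hq := Real.exp_pos (-t)
  field_simp
  nlinarith

lemma lintegral_half (b : Bool) (t : ℝ) :
    ∫⁻ c, (if 0 < sg b * (c - t) then ENNReal.ofReal (lf c) else 0) = ENNReal.ofReal (lG b t) := by
  cases b with
  | true =>
    rw [← lintegral_Ioi_lf, ← lintegral_indicator measurableSet_Ioi]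
    refine lintegral_congr fun c => ?_
    simp only [sg, if_true, one_mul, Set.indicator, Set.mem_Ioi, sub_pos]
  | false =>
    have h1 : ENNReal.ofReal (lG false t) = ENNReal.ofReal (lG true (-t)) := by
      simp [lG, sg]
    rw [h1, ← lintegral_Ioi_lf, ← lintegral_indicator measurableSet_Ioi]
    rw [← lintegral_neg_eq_self]
    refine lintegral_congr fun c => ?_
    simp only [sg, Set.indicator, Set.mem_Ioi, lf_neg]
    have : (0 < (if (false = true) then (1:ℝ) else -1) * (-c - t)) ↔ -t < c := by
      simp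
      constructor <;> intro h <;> linarith
    simp only [this]

lemma lintegral_lf : ∫⁻ c, ENNReal.ofReal (lf c) = 1 := by
  have h0 : ∫⁻ c, ENNReal.ofReal (lf c)
      = (∫⁻ c, (if 0 < sg true * (c - 0) then ENNReal.ofReal (lf c) else 0))
        + ∫⁻ c, (if 0 < sg false * (c - 0) then ENNReal.ofReal (lf c) else 0) := by
    rw [← lintegral_add_left]
    · refine lintegral_congr_ae ?_
      have : ∀ᵐ c : ℝ, c ≠ 0 := by
        simp [ae_iff, measure_singleton]
      filter_upwards [this] with c hc
      rcases lt_or_gt_of_ne hc with h | h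
      · simp [sg, h, not_lt.mpr h.le]
      · simp [sg, h, not_lt.mpr h.le]
    · refine Measurable.ite ?_ (lf_cont.measurable.ennreal_ofReal) measurable_const
      exact measurableSet_lt measurable_const (by fun_prop)
  rw [h0, lintegral_half, lintegral_half, ← ENNReal.ofReal_add (lG_pos _ _).le (lG_pos _ _).le]
  simp [lG]
  norm_num

end MP087bf0
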