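import Pool.Agent.Lib.MP_087bf0.Meas
import Pool.Agent.Lib.MP_087bf0.OneD

namespace MP087bf0

open Finset MeasureTheory ENNReal Filter Topology

variable {d n : ℕ}

lemma ae_generic (w : Fin n → Fin d → ℝ) : ∀ᵐ c : Fin n → ℝ, Generic w c := by
  classical
  unfold Generic
  rw [ae_all_iff]
  intro s
  by_cases hs : (Wm w s).det ≠ 0
  swap
  · exact Eventually.of_forall fun c h => absurd h hs
  have : ∀ i : Fin n, ∀ᵐ c : Fin n → ℝ, i ∉ Set.range s → ∀ l : Fin d → ℝ,
      (∀ j, c (s j) = w (s j) ⬝ᵥ l) → c i ≠ w i ⬝ᵥ l := by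
    intro i
    by_cases hi : i ∈ Set.range s
    · exact Eventually.of_forall fun c h => absurd hi h
    let φ : (Fin n → ℝ) →ₗ[ℝ] ℝ :=
      { toFun := fun c => c i - w i ⬝ᵥ ((Wm w s)⁻¹.mulVec fun j => c (s j))
        map_add' := by
          intro x y
          have : (fun j => (x + y) (s j)) = (fun j => x (s j)) + fun j => y (s j) := rfl
          rw [this, Matrix.mulVec_add, dotProduct_add]
          simp only [Pi.add_apply]
          ring
        map_smul' := by
          intro a x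
          have : (fun j => (a • x) (s j)) = a • (fun j => x (s j)) := rfl
          rw [this, Matrix.mulVec_smul, dotProduct_smul]
          simp only [Pi.smul_apply, smul_eq_mul, RingHom.id_apply]
          ring }
    have hker : LinearMap.ker φ ≠ ⊤ := by
      intro htop
      have h1 : (Pi.single i (1:ℝ) : Fin n → ℝ) ∈ LinearMap.ker φ := by rw [htop]; trivial
      rw [LinearMap.mem_ker] at h1
      have h2 : (fun j => (Pi.single i (1:ℝ) : Fin n → ℝ) (s j)) = 0 := by
        ext j
        rw [Pi.single_eq_of_ne]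
        · rfl
        · rintro rfl; exact hi ⟨j, rfl⟩
      have h3 : φ (Pi.single i (1:ℝ)) = 1 := by
        change (Pi.single i (1:ℝ) : Fin n → ℝ) i - w i ⬝ᵥ ((Wm w s)⁻¹.mulVec fun j => (Pi.single i (1:ℝ) : Fin n → ℝ) (s j)) = 1
        rw [h2, Matrix.mulVec_zero, dotProduct_zero, Pi.single_eq_same, sub_zero]
      rw [h3] at h1
      exact one_ne_zero h1
    have hnull := Measure.addHaar_submodule (volume : Measure (Fin n → ℝ)) (LinearMap.ker φ) hker
    rw [ae_iff]
    refine measure_mono_null ?_ hnull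
    intro c hc
    simp only [Set.mem_ofPred_eq] at hc
    push Not at hc
    obtain ⟨_, l, hl, hcl⟩ := hc
    have hl2 : l = (Wm w s)⁻¹.mulVec fun j => c (s j) := by
      have h1 : (Wm w s).mulVec l = fun j => c (s j) := funext fun j => (hl j).symm
      rw [← h1, Matrix.mulVec_mulVec, Matrix.nonsing_inv_mul _ (isUnit_iff_ne_zero.mpr hs), Matrix.one_mulVec]
    change c ∈ LinearMap.ker φ
    rw [LinearMap.mem_ker]
    change c i - w i ⬝ᵥ ((Wm w s)⁻¹.mulVec fun j => c (s j)) = 0
    rw [← hl2, hcl, sub_self]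
  filter_upwards [(ae_all_iff (ι := Fin n)).mpr this] with c hc _ i
  exact hc i

lemma prod_split (s : Fin d → Fin n) (hs : Function.Injective s) {M : Type*} [CommMonoid M]
    (F : Fin n → M) :
    ∏ i, F i = (∏ j, F (s j)) * ∏ i : ((Set.range s)ᶜ : Set (Fin n)), F i := by
  classical
  let e : Fin d ⊕ ((Set.range s)ᶜ : Set (Fin n)) ≃ Fin n :=
    (Equiv.sumCongr (Equiv.ofInjective s hs) (Equiv.refl _)).trans (Equiv.Set.sumCompl (Set.range s))
  have he1 : ∀ j, e (Sum.inl j) = s j := fun j => by simp [e]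
  have he2 : ∀ i : ((Set.range s)ᶜ : Set (Fin n)), e (Sum.inr i) = i := fun i => by
    simp only [e, Equiv.trans_apply, Equiv.sumCongr_apply, Sum.map_inr, Equiv.refl_apply]
    exact Equiv.Set.sumCompl_apply_inr _ _
  rw [← e.prod_comp, Fintype.prod_sum_type]
  simp only [he1, he2]

/-- the pointwise bound -/
lemma pointwise (w : Fin n → Fin d → ℝ) (s : Fin d → Fin n) (hs : Function.Injective s)
    (ε : Fin n → Bool) (hF : Feas w s ε) (l : Fin d → ℝ) :
    (∏ j, lf (w (s j) ⬝ᵥ l)) * ∏ i : ((Set.range s)ᶜ : Set (Fin n)), lG (ε i) (w i ⬝ᵥ l)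
      ≤ ∏ i, lH (w i ⬝ᵥ l) := by
  classical
  obtain ⟨x, hx, hzero⟩ := hF
  have h1 : ∑ i : ((Set.range s)ᶜ : Set (Fin n)), sg (ε i) * (w i ⬝ᵥ l) + ∑ j, x j * (w (s j) ⬝ᵥ l) = 0 := by
    have h2 := congrArg (fun v => v ⬝ᵥ l) hzero
    simp only [add_dotProduct, sum_dotProduct, smul_dotProduct, zero_dotProduct, smul_eq_mul] at h2
    rw [← h2]
    congr 1
    refine (Finset.sum_subtype _ (fun i => ?_) (fun i => sg (ε i) * (w i ⬝ᵥ l))).symm
    simp
  rw [prod_split s hs (fun i => lH (w i ⬝ᵥ l))]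
  have e1 : ∏ i : ((Set.range s)ᶜ : Set (Fin n)), lG (ε i) (w i ⬝ᵥ l)
      = (∏ i : ((Set.range s)ᶜ : Set (Fin n)), lH (w i ⬝ᵥ l))
        * Real.exp ((∑ j, x j * (w (s j) ⬝ᵥ l)) / 2) := by
    have h3 : (∑ j, x j * (w (s j) ⬝ᵥ l)) / 2
        = ∑ i : ((Set.range s)ᶜ : Set (Fin n)), -(sg (ε i) * (w i ⬝ᵥ l) / 2) := by
      rw [Finset.sum_neg_distrib, ← Finset.sum_div]
      linarith
    rw [h3, Real.exp_sum, ← Finset.prod_mul_distrib]
    exact Finset.prod_congr rfl fun i _ => lG_eq _ _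
  have e2 : ∏ j, lf (w (s j) ⬝ᵥ l) = (∏ j, lH (w (s j) ⬝ᵥ l)) * ∏ j, lH (w (s j) ⬝ᵥ l) := by
    rw [← Finset.prod_mul_distrib]
    exact Finset.prod_congr rfl fun j _ => lf_eq _
  have e3 : (∏ j, lH (w (s j) ⬝ᵥ l)) * Real.exp ((∑ j, x j * (w (s j) ⬝ᵥ l)) / 2) ≤ 1 := by
    rw [Finset.sum_div, Real.exp_sum, ← Finset.prod_mul_distrib]
    refine Finset.prod_le_one (fun j _ => (mul_pos (lH_pos _) (Real.exp_pos _)).le) fun j _ => ?_
    set t := w (s j) ⬝ᵥ l
    have hb : Real.exp (x j * t / 2) ≤ Real.exp (t / 2) + Real.exp (-(t / 2)) := by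
      have h4 : x j * t / 2 ≤ |t| / 2 := by
        have : x j * t ≤ |x j * t| := le_abs_self _
        rw [abs_mul] at this
        nlinarith [hx j, abs_nonneg t]
      rcases le_total 0 t with h0 | h0
      · rw [abs_of_nonneg h0] at h4
        have := Real.exp_le_exp.mpr h4
        linarith [Real.exp_pos (-(t/2))]
      · rw [abs_of_nonpos h0] at h4
        have := Real.exp_le_exp.mpr h4
        rw [neg_div] at this
        linarith [Real.exp_pos (t/2)]
    unfold lH
    rw [one_div_mul_eq_div, div_le_one (by positivity)]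
    exact hb
  rw [e1, e2]
  set A := ∏ j, lH (w (s j) ⬝ᵥ l)
  set B := ∏ i : ((Set.range s)ᶜ : Set (Fin n)), lH (w i ⬝ᵥ l)
  set E := Real.exp ((∑ j, x j * (w (s j) ⬝ᵥ l)) / 2)
  have hA : 0 ≤ A := Finset.prod_nonneg fun j _ => (lH_pos _).le
  have hB : 0 ≤ B := Finset.prod_nonneg fun j _ => (lH_pos _).le
  calc A * A * (B * E) = (A * B) * (A * E) := by ring
    _ ≤ (A * B) * 1 := mul_le_mul_of_nonneg_left e3 (mul_nonneg hA hB)
    _ = A * B := mul_one _

lemma cell_bound (w : Fin n → Fin d → ℝ) (s : Fin d → Fin n) (ε : Fin n → Bool)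
    (hs : (Wm w s).det ≠ 0) (hF : Feas w s ε) :
    ∫⁻ c, (Cell w s ε).indicator (fun c => ∏ i, ENNReal.ofReal (lf (c i))) c
      ≤ ENNReal.ofReal |(Wm w s).det| * ∫⁻ l : Fin d → ℝ, ∏ i, ENNReal.ofReal (lH (w i ⬝ᵥ l)) := by
  classical
  have hinj := inj_of_det w s hs
  let lam : (Fin n → ℝ) → Fin d → ℝ := fun c => (Wm w s)⁻¹.mulVec (fun j => c (s j))
  have hlam : ∀ c j, w (s j) ⬝ᵥ lam c = c (s j) := by
    intro c j
    have h1 : (Wm w s).mulVec (lam c) = fun j => c (s j) := by
      simp only [lam]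
      rw [Matrix.mulVec_mulVec, Matrix.mul_nonsing_inv _ (isUnit_iff_ne_zero.mpr hs), Matrix.one_mulVec]
    exact congrFun h1 j
  have hlamu : ∀ c l, (∀ j, c (s j) = w (s j) ⬝ᵥ l) → l = lam c := by
    intro c l hl
    have h1 : (Wm w s).mulVec l = fun j => c (s j) := funext fun j => (hl j).symm
    simp only [lam]
    rw [← h1, Matrix.mulVec_mulVec, Matrix.nonsing_inv_mul _ (isUnit_iff_ne_zero.mpr hs), Matrix.one_mulVec]
  let Φ : (Fin n → ℝ) → ℝ≥0∞ := fun c => (∏ j, ENNReal.ofReal (lf (c (s j)))) *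
    ∏ i : ((Set.range s)ᶜ : Set (Fin n)),
      (if 0 < sg (ε i) * (c i - w i ⬝ᵥ lam c) then ENNReal.ofReal (lf (c i)) else 0)
  have hΦeq : ∀ c, (Cell w s ε).indicator (fun c => ∏ i, ENNReal.ofReal (lf (c i))) c = Φ c := by
    intro c
    by_cases hc : c ∈ Cell w s ε
    · rw [Set.indicator_of_mem hc]
      obtain ⟨l, hl, hl2⟩ := hc
      have := hlamu c l hl
      subst this
      simp only [Φ]
      rw [prod_split s hinj (fun i => ENNReal.ofReal (lf (c i)))]
      congr 1
      refine Finset.prod_congr rfl fun i _ => ?_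
      rw [if_pos (hl2 i i.2)]
    · rw [Set.indicator_of_notMem hc]
      have : ∃ i : ((Set.range s)ᶜ : Set (Fin n)), ¬ (0 < sg (ε i) * (c i - w i ⬝ᵥ lam c)) := by
        by_contra hcon
        push Not at hcon
        exact hc ⟨lam c, fun j => (hlam c j).symm, fun i hi => hcon ⟨i, hi⟩⟩
      obtain ⟨i, hi⟩ := this
      simp only [Φ]
      rw [Finset.prod_eq_zero (Finset.mem_univ i), mul_zero]
      rw [if_neg hi]
  have hlamc : Continuous lam := by
    simp only [lam]
    exact (Continuous.matrix_mulVec continuous_const (by fun_prop))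
  have hΦm : Measurable Φ := by
    refine Measurable.mul ?_ ?_
    · refine Finset.measurable_fun_prod _ fun j _ => ?_
      exact (lf_cont.measurable.comp (measurable_pi_apply _)).ennreal_ofReal
    · refine Finset.measurable_fun_prod _ fun i _ => ?_
      refine Measurable.ite ?_ ?_ measurable_const
      · refine measurableSet_lt measurable_const ?_
        have : Continuous fun c : Fin n → ℝ => sg (ε i) * (c i - w i ⬝ᵥ lam c) := by
          refine continuous_const.mul ((continuous_apply _).sub ?_)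
          exact Continuous.dotProduct continuous_const hlamc
        exact this.measurable
      · exact (lf_cont.measurable.comp (measurable_pi_apply _)).ennreal_ofReal
  rw [lintegral_congr hΦeq]
  obtain ⟨glue, hg1, hg2, hg3⟩ := lintegral_split s hinj Φ hΦm
  rw [hg3]
  have hlamg : ∀ y z, lam (glue y z) = (Wm w s)⁻¹.mulVec y := by
    intro y z
    simp only [lam, hg1]
  have hinner : ∀ y, ∫⁻ z, Φ (glue y z) = (∏ j, ENNReal.ofReal (lf (y j))) *
      ∏ i : ((Set.range s)ᶜ : Set (Fin n)), ENNReal.ofReal (lG (ε i) (w i ⬝ᵥ ((Wm w s)⁻¹.mulVec y))) := by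
    intro y
    simp only [Φ, hlamg, hg1, hg2]
    rw [lintegral_const_mul']
    swap
    · exact ENNReal.prod_ne_top fun j _ => ENNReal.ofReal_ne_top
    congr 1
    rw [lintegral_fintype_prod (fun (i : ((Set.range s)ᶜ : Set (Fin n))) (x : ℝ) =>
      if 0 < sg (ε i) * (x - w i ⬝ᵥ ((Wm w s)⁻¹.mulVec y)) then ENNReal.ofReal (lf x) else 0)]
    · exact Finset.prod_congr rfl fun i _ => lintegral_half _ _
    · intro i
      refine Measurable.ite ?_ (lf_cont.measurable.ennreal_ofReal) measurable_const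
      exact measurableSet_lt measurable_const (by fun_prop)
  rw [lintegral_congr hinner]
  rw [lintegral_mulVec (Wm w s) hs]
  · refine mul_le_mul_right (lintegral_mono fun l => ?_) _
    have h1 : (Wm w s)⁻¹.mulVec ((Wm w s).mulVec l) = l := by
      rw [Matrix.mulVec_mulVec, Matrix.nonsing_inv_mul _ (isUnit_iff_ne_zero.mpr hs), Matrix.one_mulVec]
    simp only [h1]
    have h2 : ∀ j, (Wm w s).mulVec l j = w (s j) ⬝ᵥ l := fun j => rfl
    simp only [h2]
    rw [← ENNReal.ofReal_prod_of_nonneg (fun i _ => (lf_pos _).le),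
      ← ENNReal.ofReal_prod_of_nonneg (fun i _ => (lG_pos _ _).le),
      ← ENNReal.ofReal_prod_of_nonneg (fun i _ => (lH_pos _).le),
      ← ENNReal.ofReal_mul (Finset.prod_nonneg fun j _ => (lf_pos _).le)]
    exact ENNReal.ofReal_le_ofReal (pointwise w s hinj ε hF l)
  · refine Measurable.mul ?_ ?_
    · refine Finset.measurable_fun_prod _ fun j _ => ?_
      exact (lf_cont.measurable.comp (measurable_pi_apply _)).ennreal_ofReal
    · refine Finset.measurable_fun_prod _ fun i _ => ?_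
      have : Continuous fun y : Fin d → ℝ => w i ⬝ᵥ ((Wm w s)⁻¹.mulVec y) :=
        Continuous.dotProduct continuous_const (Continuous.matrix_mulVec continuous_const (by fun_prop))
      exact ((lG_cont _).comp this).measurable.ennreal_ofReal

end MP087bf0
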