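import Pool.Agent.Lib.MP_087bf0.CellB

namespace MP087bf0

open Finset MeasureTheory ENNReal Filter Topology

variable {d n : ℕ}

lemma cell_meas (w : Fin n → Fin d → ℝ) (s : Fin d → Fin n) (ε : Fin n → Bool)
    (hs : (Wm w s).det ≠ 0) : MeasurableSet (Cell w s ε) := by
  classical
  let lam : (Fin n → ℝ) → Fin d → ℝ := fun c => (Wm w s)⁻¹.mulVec (fun j => c (s j))
  have hlam : ∀ c j, w (s j) ⬝ᵥ lam c = c (s j) := by
    intro c j
    have h1 : (Wm w s).mulVec (lam c) = fun j => c (s j) := by
      simp only [lam]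
      rw [Matrix.mulVec_mulVec, Matrix.mul_nonsing_inv _ (isUnit_iff_ne_zero.mpr hs), Matrix.one_mulVec]
    exact congrFun h1 j
  have hlamu : ∀ c l, (∀ j, c (s j) = w (s j) ⬝ᵥ l) → l = lam c := by
    intro c l hl
    have h1 : (Wm w s).mulVec l = fun j => c (s j) := funext fun j => (hl j).symm
    simp only [lam]
    rw [← h1, Matrix.mulVec_mulVec, Matrix.nonsing_inv_mul _ (isUnit_iff_ne_zero.mpr hs), Matrix.one_mulVec]
  have hlamc : Continuous lam := by
    simp only [lam]
    exact (Continuous.matrix_mulVec continuous_const (by fun_prop))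
  have : Cell w s ε = ⋂ i : ((Set.range s)ᶜ : Set (Fin n)), {c | 0 < sg (ε i) * (c i - w i ⬝ᵥ lam c)} := by
    ext c
    simp only [Set.mem_iInter, Set.mem_ofPred_eq]
    constructor
    · rintro ⟨l, hl, hl2⟩ i
      have := hlamu c l hl
      subst this
      exact hl2 i i.2
    · intro h
      exact ⟨lam c, fun j => (hlam c j).symm, fun i hi => h ⟨i, hi⟩⟩
  rw [this]
  refine MeasurableSet.iInter fun i => ?_
  refine measurableSet_lt measurable_const ?_
  have : Continuous fun c : Fin n → ℝ => sg (ε i) * (c i - w i ⬝ᵥ lam c) := by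
    refine continuous_const.mul ((continuous_apply _).sub ?_)
    exact Continuous.dotProduct continuous_const hlamc
  exact this.measurable

lemma range_perm (s : Fin d → Fin n) (π : Equiv.Perm (Fin d)) : Set.range (s ∘ π) = Set.range s :=
  π.surjective.range_comp s

lemma det_perm (w : Fin n → Fin d → ℝ) (s : Fin d → Fin n) (π : Equiv.Perm (Fin d))
    (hs : (Wm w s).det ≠ 0) : (Wm w (s ∘ π)).det ≠ 0 := by
  have : Wm w (s ∘ π) = (Wm w s).submatrix π id := rfl
  rw [this, Matrix.det_permute]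
  exact mul_ne_zero (by exact_mod_cast (Int.cast_ne_zero.mpr (Units.ne_zero _))) hs

lemma feas_perm (w : Fin n → Fin d → ℝ) (s : Fin d → Fin n) (ε : Fin n → Bool)
    (π : Equiv.Perm (Fin d)) (h : Feas w s ε) : Feas w (s ∘ π) ε := by
  classical
  obtain ⟨x, hx, hz⟩ := h
  refine ⟨x ∘ π, fun j => hx _, ?_⟩
  rw [← hz]
  congr 1
  · simp only [range_perm]
  · exact Equiv.sum_comp π (fun j => x j • w (s j))

lemma cell_perm (w : Fin n → Fin d → ℝ) (s : Fin d → Fin n) (ε : Fin n → Bool)
    (π : Equiv.Perm (Fin d)) (c : Fin n → ℝ) (h : c ∈ Cell w s ε) : c ∈ Cell w (s ∘ π) ε := by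
  obtain ⟨l, h1, h2⟩ := h
  refine ⟨l, fun j => h1 _, ?_⟩
  rw [range_perm]
  exact h2

open Classical in
/-- the finite set of good signings -/
noncomputable def GoodSet (w : Fin n → Fin d → ℝ) : Finset (Fin n → Bool) := univ.filter (Good w)

theorem count (w : Fin n → Fin d → ℝ) (hw : ∀ i, w i ⬝ᵥ w i ≤ 1)
    (hspan : ∃ s : Fin d → Fin n, (Wm w s).det ≠ 0) :
    (d.factorial : ℝ≥0∞) ≤ (GoodSet w).card * (∑ s : Fin d → Fin n, ENNReal.ofReal |(Wm w s).det|) *
      ∫⁻ l : Fin d → ℝ, ∏ i, ENNReal.ofReal (lH (w i ⬝ᵥ l)) := by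
  classical
  set I := ∫⁻ l : Fin d → ℝ, ∏ i, ENNReal.ofReal (lH (w i ⬝ᵥ l)) with hI
  let ρ : (Fin n → ℝ) → ℝ≥0∞ := fun c => ∏ i, ENNReal.ofReal (lf (c i))
  have hρm : Measurable ρ := Finset.measurable_fun_prod _ fun i _ =>
    (lf_cont.measurable.comp (measurable_pi_apply _)).ennreal_ofReal
  have hρ1 : ∫⁻ c, ρ c = 1 := by
    simp only [ρ]
    rw [lintegral_fin_prod (fun _ x => ENNReal.ofReal (lf x)) (fun _ => lf_cont.measurable.ennreal_ofReal)]
    simp [lintegral_lf]
  let B : Finset (Fin d → Fin n) := univ.filter fun s => (Wm w s).det ≠ 0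
  let N : (Fin n → ℝ) → ℝ≥0∞ := fun c => ∑ s ∈ B, ∑ ε ∈ (GoodSet w).filter (Feas w s),
    (Cell w s ε).indicator ρ c
  have hN : ∀ᵐ c, (d.factorial : ℝ≥0∞) * ρ c ≤ N c := by
    filter_upwards [ae_generic w] with c hc
    obtain ⟨s, hs, ε, hg, hf, hcell⟩ := cover w hw hspan c hc
    have hinj := inj_of_det w s hs
    have himg : (univ.image fun π : Equiv.Perm (Fin d) => s ∘ π) ⊆ B := by
      intro s' hs'
      rw [Finset.mem_image] at hs'
      obtain ⟨π, _, rfl⟩ := hs'
      simp only [B, Finset.mem_filter, Finset.mem_univ, true_and]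
      exact det_perm w s π hs
    have hcard : (univ.image fun π : Equiv.Perm (Fin d) => s ∘ π).card = d.factorial := by
      rw [Finset.card_image_of_injective]
      · rw [Finset.card_univ, Fintype.card_perm, Fintype.card_fin]
      · intro π₁ π₂ h
        ext j
        have := congrFun h j
        exact congrArg _ (hinj this)
    calc (d.factorial : ℝ≥0∞) * ρ c
        = ∑ s' ∈ univ.image (fun π : Equiv.Perm (Fin d) => s ∘ π), ρ c := by
          rw [Finset.sum_const, hcard, nsmul_eq_mul]
      _ ≤ ∑ s' ∈ univ.image (fun π : Equiv.Perm (Fin d) => s ∘ π),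
            ∑ ε ∈ (GoodSet w).filter (Feas w s'), (Cell w s' ε).indicator ρ c := by
          refine Finset.sum_le_sum fun s' hs' => ?_
          rw [Finset.mem_image] at hs'
          obtain ⟨π, _, rfl⟩ := hs'
          have hmem : ε ∈ (GoodSet w).filter (Feas w (s ∘ π)) := by
            rw [Finset.mem_filter, GoodSet, Finset.mem_filter]
            exact ⟨⟨Finset.mem_univ _, hg⟩, feas_perm w s ε π hf⟩
          calc ρ c = (Cell w (s ∘ π) ε).indicator ρ c := by
                rw [Set.indicator_of_mem (cell_perm w s ε π c hcell)]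
            _ ≤ _ := Finset.single_le_sum (f := fun ε => (Cell w (s ∘ π) ε).indicator ρ c)
                  (fun _ _ => zero_le) hmem
      _ ≤ N c := Finset.sum_le_sum_of_subset himg
  calc (d.factorial : ℝ≥0∞) = ∫⁻ c, (d.factorial : ℝ≥0∞) * ρ c := by
        rw [lintegral_const_mul _ hρm, hρ1, mul_one]
    _ ≤ ∫⁻ c, N c := lintegral_mono_ae hN
    _ = ∑ s ∈ B, ∑ ε ∈ (GoodSet w).filter (Feas w s), ∫⁻ c, (Cell w s ε).indicator ρ c := by
        simp only [N]
        rw [lintegral_finsetSum' B]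
        · refine Finset.sum_congr rfl fun s hs => ?_
          have hs' : (Wm w s).det ≠ 0 := by simpa [B] using hs
          rw [lintegral_finsetSum']
          exact fun ε _ => (hρm.indicator (cell_meas w s ε hs')).aemeasurable
        · intro s hs
          have hs' : (Wm w s).det ≠ 0 := by simpa [B] using hs
          exact Finset.aemeasurable_fun_sum _ fun ε _ => (hρm.indicator (cell_meas w s ε hs')).aemeasurable
    _ ≤ ∑ s ∈ B, ∑ ε ∈ (GoodSet w).filter (Feas w s), ENNReal.ofReal |(Wm w s).det| * I := by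
        refine Finset.sum_le_sum fun s hs => Finset.sum_le_sum fun ε hε => ?_
        have hs' : (Wm w s).det ≠ 0 := by simpa [B] using hs
        exact cell_bound w s ε hs' (Finset.mem_filter.mp hε).2
    _ ≤ ∑ s ∈ B, (GoodSet w).card * (ENNReal.ofReal |(Wm w s).det| * I) := by
        refine Finset.sum_le_sum fun s hs => ?_
        rw [Finset.sum_const, nsmul_eq_mul]
        refine mul_le_mul_left ?_ _
        exact_mod_cast Finset.card_le_card (Finset.filter_subset _ _)
    _ ≤ ∑ s, (GoodSet w).card * (ENNReal.ofReal |(Wm w s).det| * I) :=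
        Finset.sum_le_sum_of_subset (Finset.subset_univ _)
    _ = _ := by
        rw [← Finset.mul_sum, ← Finset.sum_mul, mul_assoc]

end MP087bf0
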