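import Pool.Agent.Lib.MP_087bf0.Round

namespace MP087bf0

open Finset

variable {d n : ℕ}

/-- the matrix whose rows are the chosen vectors -/
def Wm (w : Fin n → Fin d → ℝ) (s : Fin d → Fin n) : Matrix (Fin d) (Fin d) ℝ :=
  fun j => w (s j)

/-- the cell of a basis and a sign pattern -/
def Cell (w : Fin n → Fin d → ℝ) (s : Fin d → Fin n) (ε : Fin n → Bool) : Set (Fin n → ℝ) :=
  {c | ∃ l : Fin d → ℝ, (∀ j, c (s j) = w (s j) ⬝ᵥ l) ∧
    ∀ i, i ∉ Set.range s → 0 < sg (ε i) * (c i - w i ⬝ᵥ l)}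

/-- feasibility -/
def Feas (w : Fin n → Fin d → ℝ) (s : Fin d → Fin n) (ε : Fin n → Bool) : Prop :=
  ∃ x : Fin d → ℝ, (∀ j, |x j| ≤ 1) ∧
    ∑ i ∈ univ.filter (fun i => i ∉ Set.range s), sg (ε i) • w i + ∑ j, x j • w (s j) = 0

/-- good signings -/
def Good (w : Fin n → Fin d → ℝ) (ε : Fin n → Bool) : Prop :=
  (∑ i, sg (ε i) • w i) ⬝ᵥ (∑ i, sg (ε i) • w i) ≤ d

/-- genericity of the data -/
def Generic (w : Fin n → Fin d → ℝ) (c : Fin n → ℝ) : Prop :=
  ∀ s : Fin d → Fin n, (Wm w s).det ≠ 0 → ∀ i, i ∉ Set.range s → ∀ l : Fin d → ℝ,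
    (∀ j, c (s j) = w (s j) ⬝ᵥ l) → c i ≠ w i ⬝ᵥ l

lemma inj_of_det (w : Fin n → Fin d → ℝ) (s : Fin d → Fin n) (h : (Wm w s).det ≠ 0) :
    Function.Injective s := by
  intro a b hab
  by_contra hne
  exact h (Matrix.det_zero_of_row_eq hne (by simp [Wm, hab]))

lemma sum_split (s : Fin d → Fin n) (hs : Function.Injective s) {M : Type*} [AddCommMonoid M]
    (F : Fin n → M) :
    ∑ i, F i = ∑ i ∈ univ.filter (fun i => i ∉ Set.range s), F i + ∑ j, F (s j) := by
  classical
  rw [← Finset.sum_filter_add_sum_filter_not univ (fun i => i ∉ Set.range s)]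
  congr 1
  have : (univ.filter fun i => ¬ (i ∉ Set.range s)) = univ.image s := by
    ext i; simp
  rw [this, Finset.sum_image (fun a _ b _ h => hs h)]

lemma cover (w : Fin n → Fin d → ℝ) (hw : ∀ i, w i ⬝ᵥ w i ≤ 1)
    (hspan : ∃ s : Fin d → Fin n, (Wm w s).det ≠ 0) (c : Fin n → ℝ) (hc : Generic w c) :
    ∃ s : Fin d → Fin n, (Wm w s).det ≠ 0 ∧ ∃ ε, Good w ε ∧ Feas w s ε ∧ c ∈ Cell w s ε := by
  classical
  -- the interpolation at s
  let lam : (Fin d → Fin n) → Fin d → ℝ := fun s => (Wm w s)⁻¹.mulVec (fun j => c (s j))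
  have hlam : ∀ s, (Wm w s).det ≠ 0 → ∀ j, w (s j) ⬝ᵥ lam s = c (s j) := by
    intro s hs j
    have h1 : (Wm w s).mulVec (lam s) = fun j => c (s j) := by
      simp only [lam]
      rw [Matrix.mulVec_mulVec, Matrix.mul_nonsing_inv _ (isUnit_iff_ne_zero.mpr hs), Matrix.one_mulVec]
    exact congrFun h1 j
  have hlamu : ∀ s, (Wm w s).det ≠ 0 → ∀ l, (∀ j, w (s j) ⬝ᵥ l = c (s j)) → l = lam s := by
    intro s hs l hl
    have h1 : (Wm w s).mulVec l = fun j => c (s j) := funext hl
    simp only [lam]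
    rw [← h1, Matrix.mulVec_mulVec, Matrix.nonsing_inv_mul _ (isUnit_iff_ne_zero.mpr hs), Matrix.one_mulVec]
  let L : (Fin d → ℝ) → ℝ := fun l => ∑ i, |c i - w i ⬝ᵥ l|
  obtain ⟨s0, hs0⟩ := hspan
  obtain ⟨s, hsmem, hsmin⟩ := Finset.exists_min_image
    (univ.filter fun s : Fin d → Fin n => (Wm w s).det ≠ 0) (fun s => L (lam s))
    ⟨s0, by simpa using hs0⟩
  have hs : (Wm w s).det ≠ 0 := by simpa using hsmem
  have hmin : ∀ s', (Wm w s').det ≠ 0 → L (lam s) ≤ L (lam s') := fun s' h' =>
    hsmin s' (by simpa using h')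
  have hinj := inj_of_det w s hs
  set T := univ.filter (fun i => i ∉ Set.range s) with hT
  set l0 := lam s with hl0
  let r : Fin n → ℝ := fun i => c i - w i ⬝ᵥ l0
  have hrs : ∀ j, r (s j) = 0 := fun j => by simp only [r]; rw [hl0, hlam s hs j, sub_self]
  have hrT : ∀ i ∈ T, r i ≠ 0 := by
    intro i hi
    rw [hT, Finset.mem_filter] at hi
    exact sub_ne_zero.mpr (hc s hs i hi.2 l0 (fun j => (hlam s hs j).symm))
  -- coordinates
  let M : Fin n → Fin d → ℝ := fun i => Matrix.vecMul (w i) (Wm w s)⁻¹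
  have hM : ∀ i, w i = ∑ j, M i j • w (s j) := by
    intro i
    have h1 : Matrix.vecMul (M i) (Wm w s) = w i := by
      simp only [M]
      rw [Matrix.vecMul_vecMul, Matrix.nonsing_inv_mul _ (isUnit_iff_ne_zero.mpr hs), Matrix.vecMul_one]
    conv_lhs => rw [← h1]
    ext k
    simp [Matrix.vecMul, dotProduct, Wm, Finset.sum_apply]
  have hMs : ∀ k j, M (s k) j = if k = j then 1 else 0 := by
    intro k j
    have h1 : (Wm w s * (Wm w s)⁻¹) k j = (1 : Matrix (Fin d) (Fin d) ℝ) k j := by
      rw [Matrix.mul_nonsing_inv _ (isUnit_iff_ne_zero.mpr hs)]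
    rw [Matrix.one_apply] at h1
    rw [← h1]
    simp [M, Matrix.vecMul, Matrix.mul_apply, dotProduct, Wm]
  -- dual vectors
  let μ : Fin d → Fin d → ℝ := fun j k => (Wm w s)⁻¹ k j
  have hμ : ∀ i j, w i ⬝ᵥ μ j = M i j := by
    intro i j
    simp [M, μ, Matrix.vecMul, dotProduct]
  have claim : ∀ (j : Fin d) (θ : ℝ), θ = 1 ∨ θ = -1 →
      ∑ i ∈ T, sg (decide (0 < r i)) * (θ * M i j) ≤ 1 := by
    intro j θ hθ
    by_contra hcon
    push Not at hcon
    obtain ⟨i, hiT, hmi, htpos, hlt⟩ := median_step T r (fun i => θ * M i j) hrT hcon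
    have hθ2 : |θ| = 1 := by rcases hθ with h | h <;> simp [h]
    have hMi : M i j ≠ 0 := by
      intro h0; rw [h0, mul_zero] at hmi; exact hmi rfl
    set t := r i / (θ * M i j) with ht
    have hti : r i - t * (θ * M i j) = 0 := by
      rw [ht, div_mul_cancel₀ _ hmi, sub_self]
    let s' := Function.update s j i
    have hdet : (Wm w s').det = M i j * (Wm w s).det := by
      have h1 : Wm w s' = (Wm w s).updateRow j (∑ k, M i k • (Wm w s) k) := by
        ext a b
        simp only [Wm, s']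
        rw [Matrix.updateRow_apply]
        by_cases hab : a = j
        · subst hab
          simp only [Function.update_self, if_true]
          exact congrFun (hM i) b
        · rw [Function.update_of_ne hab, if_neg hab]
          rfl
      rw [h1, Matrix.det_updateRow_sum, smul_eq_mul]
    have hs' : (Wm w s').det ≠ 0 := by rw [hdet]; exact mul_ne_zero hMi hs
    let l' := l0 + (t * θ) • μ j
    have hres : ∀ k, c k - w k ⬝ᵥ l' = r k - t * (θ * M k j) := by
      intro k
      simp only [l', r, dotProduct_add, dotProduct_smul, hμ, smul_eq_mul]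
      ring
    have hl' : l' = lam s' := by
      refine hlamu s' hs' l' fun k => ?_
      by_cases hk : k = j
      · subst hk
        have : s' k = i := by simp [s']
        rw [this]
        have := hres i
        rw [hti] at this
        linarith
      · have h1 : s' k = s k := by simp [s', Function.update_of_ne hk]
        rw [h1]
        have := hres (s k)
        rw [hrs k, hMs, if_neg hk] at this
        linarith
    have hle := hmin s' hs'
    rw [← hl'] at hle
    have hL0 : L l0 = ∑ k ∈ T, |r k| := by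
      simp only [L]
      rw [sum_split s hinj]
      have : ∑ j, |c (s j) - w (s j) ⬝ᵥ l0| = 0 := by
        refine Finset.sum_eq_zero fun k _ => ?_
        have := hrs k
        simp only [r] at this
        rw [this, abs_zero]
      rw [this, add_zero]
    have hL1 : L l' = t + ∑ k ∈ T, |r k - t * (θ * M k j)| := by
      simp only [L]
      rw [sum_split s hinj, add_comm]
      congr 1
      · rw [Finset.sum_eq_single j]
        · rw [hres, hrs, hMs, if_pos rfl, mul_one, zero_sub, abs_neg, abs_mul, hθ2, mul_one,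
            abs_of_pos htpos]
        · intro k _ hk
          rw [hres, hrs, hMs, if_neg hk]; simp
        · intro h; exact absurd (Finset.mem_univ j) h
      · exact Finset.sum_congr rfl fun k _ => by rw [hres]
    rw [hL0, hL1] at hle
    linarith
  -- the multipliers
  let x : Fin d → ℝ := fun j => - ∑ i ∈ T, sg (decide (0 < r i)) * M i j
  have hx : ∀ j, |x j| ≤ 1 := by
    intro j
    have h1 := claim j 1 (Or.inl rfl)
    have h2 := claim j (-1) (Or.inr rfl)
    simp only [one_mul] at h1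
    have h3 : ∑ i ∈ T, sg (decide (0 < r i)) * (-1 * M i j) = - ∑ i ∈ T, sg (decide (0 < r i)) * M i j := by
      rw [← Finset.sum_neg_distrib]
      exact Finset.sum_congr rfl fun i _ => by ring
    rw [h3] at h2
    rw [abs_le]
    constructor
    · simp only [x]; linarith
    · simp only [x]; linarith
  have hzero : ∑ i ∈ T, sg (decide (0 < r i)) • w i + ∑ j, x j • w (s j) = 0 := by
    have h1 : ∑ i ∈ T, sg (decide (0 < r i)) • w i
        = ∑ j, (∑ i ∈ T, sg (decide (0 < r i)) * M i j) • w (s j) := by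
      simp_rw [Finset.sum_smul]
      rw [Finset.sum_comm]
      refine Finset.sum_congr rfl fun i _ => ?_
      conv_lhs => rw [hM i]
      rw [Finset.smul_sum]
      exact Finset.sum_congr rfl fun j _ => by rw [smul_smul]
    rw [h1, ← Finset.sum_add_distrib]
    refine Finset.sum_eq_zero fun j _ => ?_
    rw [← add_smul]
    simp only [x, add_neg_cancel, zero_smul]
  -- rounding
  obtain ⟨δ, hδ⟩ := round_all (fun j => w (s j)) x hx univ
    (∑ i ∈ T, sg (decide (0 < r i)) • w i)
  rw [hzero] at hδ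
  have hbound : ∑ j, (1 - x j ^ 2) * (w (s j) ⬝ᵥ w (s j)) ≤ (d : ℝ) := by
    calc ∑ j, (1 - x j ^ 2) * (w (s j) ⬝ᵥ w (s j)) ≤ ∑ j : Fin d, (1 : ℝ) := by
          refine Finset.sum_le_sum fun j _ => ?_
          have h1 : 0 ≤ w (s j) ⬝ᵥ w (s j) := by
            rw [dotProduct]; exact Finset.sum_nonneg fun k _ => mul_self_nonneg _
          have h2 := hw (s j)
          have h3 : x j ^ 2 ≤ 1 := by
            have := hx j
            rw [← sq_abs]
            nlinarith [abs_nonneg (x j)]
          nlinarith [sq_nonneg (x j)]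
      _ = d := by simp
  let ε : Fin n → Bool := fun i => if h : i ∈ Set.range s then δ h.choose else decide (0 < r i)
  have hεT : ∀ i, i ∉ Set.range s → ε i = decide (0 < r i) := by
    intro i hi
    simp only [ε, dif_neg hi]
  have hεs : ∀ j, ε (s j) = δ j := by
    intro j
    have h : s j ∈ Set.range s := ⟨j, rfl⟩
    simp only [ε, dif_pos h]
    exact congrArg δ (hinj h.choose_spec)
  have hsumT : ∑ i ∈ T, sg (ε i) • w i = ∑ i ∈ T, sg (decide (0 < r i)) • w i := by
    refine Finset.sum_congr rfl fun i hi => ?_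
    rw [hT, Finset.mem_filter] at hi
    rw [hεT i hi.2]
  refine ⟨s, hs, ε, ?_, ⟨x, hx, ?_⟩, ⟨l0, fun j => (hlam s hs j).symm, fun i hi => ?_⟩⟩
  · have : ∑ i, sg (ε i) • w i = ∑ i ∈ T, sg (decide (0 < r i)) • w i + ∑ j, sg (δ j) • w (s j) := by
      rw [sum_split s hinj, hsumT]
      congr 1
      exact Finset.sum_congr rfl fun j _ => by rw [hεs]
    unfold Good
    rw [this]
    calc _ ≤ _ := hδ
      _ ≤ d := by simpa using hbound
  · rw [← hT, hsumT]; exact hzero
  · rw [hεT i hi]
    have hri : r i ≠ 0 := hrT i (by rw [hT, Finset.mem_filter]; exact ⟨Finset.mem_univ _, hi⟩)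
    change 0 < sg (decide (0 < r i)) * r i
    rcases lt_or_gt_of_ne hri with h0 | h0
    · have : ¬ (0 < r i) := not_lt.mpr h0.le
      simp [sg, this, h0]
    · simp [sg, h0]

end MP087bf0
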