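import Mathlib

namespace MP087bf0

open Filter Topology

/-- The signed sum `σ_V(ε) = ∑ ε_i v_i`; a sign pattern is coded by Booleans
(`true` stands for `+1`, `false` for `-1`). -/
noncomputable def signedSum {d n : ℕ} (V : Fin n → EuclideanSpace ℝ (Fin d)) (ε : Fin n → Bool) :
    EuclideanSpace ℝ (Fin d) := ∑ i, (if ε i then (1 : ℝ) else -1) • V i

open Classical in
/-- `Pr(‖σ_V‖₂ ≤ r)` for independent uniform signs. -/
noncomputable def ballProb {d n : ℕ} (V : Fin n → EuclideanSpace ℝ (Fin d)) (r : ℝ) : ℝ :=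
  ((Finset.univ.filter fun ε : Fin n → Bool => ‖signedSum V ε‖ ≤ r).card : ℝ) / 2 ^ n

/-- `F_{d,r}(n)`: the infimum of `Pr(‖σ_V‖₂ ≤ r)` over `V ∈ (S^{d-1})^n`. -/
noncomputable def F (d : ℕ) (r : ℝ) (n : ℕ) : ℝ :=
  ⨅ V : Fin n → Metric.sphere (0 : EuclideanSpace ℝ (Fin d)) 1,
    ballProb (fun i => (V i : EuclideanSpace ℝ (Fin d))) r

/-- `f^0_{d,r}`: liminf of `n^{d/2} F_{d,r}(n)` along `n ≡ d (mod 2)`. -/
noncomputable def f0 (d : ℕ) (r : ℝ) : EReal :=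
  liminf (fun n : ℕ => (((n : ℝ) ^ ((d : ℝ) / 2) * F d r n : ℝ) : EReal))
    (atTop ⊓ 𝓟 {n | n % 2 = d % 2})

/-- `f^1_{d,r}`: liminf of `n^{d/2} F_{d,r}(n)` along `n ≢ d (mod 2)`. -/
noncomputable def f1 (d : ℕ) (r : ℝ) : EReal :=
  liminf (fun n : ℕ => (((n : ℝ) ^ ((d : ℝ) / 2) * F d r n : ℝ) : EReal))
    (atTop ⊓ 𝓟 {n | n % 2 ≠ d % 2})

/-- `f_{d,r} = min (f^0_{d,r}, f^1_{d,r})`. -/
noncomputable def f (d : ℕ) (r : ℝ) : EReal := min (f0 d r) (f1 d r)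

end MP087bf0
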