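import Pool.Agent.Lib.MP_087bf0.Defs

namespace MP087bf0

open Finset Filter Topology

/-! ### central binomial coefficients and the Wallis product -/

lemma wallis_eq (k : ℕ) :
    ((Nat.centralBinom k : ℝ) / 4 ^ k) ^ 2 * (2 * k + 1) * Real.Wallis.W k = 1 := by
  induction k with
  | zero => simp [Real.Wallis.W]
  | succ k ih =>
    rw [Real.Wallis.W_succ]
    have h1 : ((k : ℝ) + 1) * (Nat.centralBinom (k + 1) : ℝ) = 2 * (2 * k + 1) * Nat.centralBinom k := by
      exact_mod_cast Nat.succ_mul_centralBinom_succ k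
    have hk : ((k : ℝ) + 1) ≠ 0 := by positivity
    have h2 : (Nat.centralBinom (k + 1) : ℝ) = 2 * (2 * k + 1) * Nat.centralBinom k / (k + 1) := by
      rw [eq_div_iff hk, mul_comm]; exact h1
    rw [h2]
    push_cast
    have h3 : (2 * (k : ℝ) + 1) ≠ 0 := by positivity
    have h4 : (2 * (k : ℝ) + 3) ≠ 0 := by positivity
    have h5 : (4 : ℝ) ^ k ≠ 0 := by positivity
    calc _ = ((Nat.centralBinom k : ℝ) / 4 ^ k) ^ 2 * (2 * k + 1) * Real.Wallis.W k := by
          field_simp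
          ring
      _ = 1 := ih

lemma choose_odd (k : ℕ) :
    ((2 * k + 1).choose k : ℝ) = (2 * k + 1) / (k + 1) * Nat.centralBinom k := by
  have h1 := Nat.add_one_mul_choose_eq (2 * k) k
  have h2 : (2 * k + 1).choose (k + 1) = (2 * k + 1).choose k := by
    apply Nat.choose_symm_of_eq_add; ring
  rw [h2] at h1
  have h3 : ((2 * k + 1 : ℕ) : ℝ) * ((2 * k).choose k : ℝ) = ((2 * k + 1).choose k : ℝ) * ((k + 1 : ℕ) : ℝ) := by
    exact_mod_cast h1
  rw [Nat.centralBinom_eq_two_mul_choose]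
  push_cast at h3 ⊢
  field_simp
  linarith

/-- the squared estimate -/
lemma choose_bound (k : ℕ) :
    (2 * k + 1) * (((2 * k + 1).choose k : ℝ) / 4 ^ k) ^ 2 ≤ 8 / Real.pi := by
  have hW := Real.Wallis.le_W k
  have hWpos := Real.Wallis.W_pos k
  have h1 := wallis_eq k
  rw [choose_odd]
  have hpi := Real.pi_pos
  set c := (Nat.centralBinom k : ℝ) / 4 ^ k with hc
  have h2 : (2 * (k:ℝ) + 1) / (k + 1) * (Nat.centralBinom k : ℝ) / 4 ^ k = (2 * (k:ℝ) + 1) / (k + 1) * c := by
    rw [hc]; ring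
  rw [h2]
  have h3 : c ^ 2 * (2 * k + 1) = 1 / Real.Wallis.W k := by
    rw [eq_div_iff hWpos.ne']; exact h1
  have h4 : 1 / Real.Wallis.W k ≤ 1 / (((2 : ℝ) * k + 1) / (2 * k + 2) * (Real.pi / 2)) :=
    one_div_le_one_div_of_le (by positivity) hW
  calc (2 * (k:ℝ) + 1) * ((2 * (k:ℝ) + 1) / (k + 1) * c) ^ 2
      = ((2 * (k:ℝ) + 1) / (k + 1)) ^ 2 * (c ^ 2 * (2 * k + 1)) := by ring
    _ = ((2 * (k:ℝ) + 1) / (k + 1)) ^ 2 * (1 / Real.Wallis.W k) := by rw [h3]
    _ ≤ ((2 * (k:ℝ) + 1) / (k + 1)) ^ 2 * (1 / (((2 : ℝ) * k + 1) / (2 * k + 2) * (Real.pi / 2))) := by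
        gcongr
    _ = 4 * (2 * k + 1) / ((k + 1) * Real.pi) := by
        field_simp
        ring
    _ ≤ 8 / Real.pi := by
        rw [div_le_div_iff₀ (by positivity) hpi]
        nlinarith [Real.pi_pos]

/-! ### counting balanced sign patterns -/

lemma sum_sign {m : ℕ} (δ : Fin m → Bool) :
    ∑ i, (if δ i then (1 : ℝ) else -1) = 2 * ((univ.filter fun i => δ i = true).card : ℝ) - m := by
  have h1 : ∀ i, (if δ i then (1 : ℝ) else -1) = 2 * (if δ i = true then 1 else 0) - 1 := by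
    intro i; cases δ i <;> norm_num
  simp_rw [h1]
  rw [Finset.sum_sub_distrib, ← Finset.mul_sum, Finset.sum_ite, Finset.sum_const, Finset.sum_const_zero]
  simp

lemma card_true (m k : ℕ) :
    (univ.filter fun δ : Fin m → Bool => (univ.filter fun i => δ i = true).card = k).card = m.choose k := by
  classical
  have hcard : m.choose k = (Finset.powersetCard k (univ : Finset (Fin m))).card := by simp
  rw [hcard]
  refine Finset.card_bij (fun δ _ => univ.filter fun i => δ i = true) ?_ ?_ ?_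
  · intro δ hδ
    rw [Finset.mem_filter] at hδ
    rw [Finset.mem_powersetCard]
    exact ⟨Finset.subset_univ _, hδ.2⟩
  · intro δ₁ _ δ₂ _ h
    ext i
    have := congrArg (fun s => i ∈ s) h
    simp only [Finset.mem_filter, Finset.mem_univ, true_and] at this
    cases h1 : δ₁ i <;> cases h2 : δ₂ i <;> simp_all
  · intro s hs
    rw [Finset.mem_powersetCard] at hs
    refine ⟨fun i => decide (i ∈ s), ?_, ?_⟩
    · rw [Finset.mem_filter]
      refine ⟨Finset.mem_univ _, ?_⟩
      have : (univ.filter fun i => decide (i ∈ s) = true) = s := by ext i; simp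
      rw [this]; exact hs.2
    · ext i; simp

lemma card_balanced (k : ℕ) :
    (univ.filter fun δ : Fin (2 * k + 1) → Bool =>
      (∑ i, (if δ i then (1 : ℝ) else -1)) ^ 2 ≤ 1).card ≤ 2 * (2 * k + 1).choose k := by
  classical
  have hsub : (univ.filter fun δ : Fin (2 * k + 1) → Bool =>
      (∑ i, (if δ i then (1 : ℝ) else -1)) ^ 2 ≤ 1)
      ⊆ (univ.filter fun δ : Fin (2 * k + 1) → Bool => (univ.filter fun i => δ i = true).card = k)
        ∪ (univ.filter fun δ : Fin (2 * k + 1) → Bool => (univ.filter fun i => δ i = true).card = k + 1) := by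
    intro δ hδ
    rw [Finset.mem_filter, sum_sign] at hδ
    rw [Finset.mem_union, Finset.mem_filter, Finset.mem_filter]
    have h := hδ.2
    set a := (univ.filter fun i => δ i = true).card
    have h1 : |2 * (a : ℝ) - ((2 * k + 1 : ℕ) : ℝ)| ≤ 1 := by
      rw [← sq_le_one_iff_abs_le_one]; exact h
    rw [abs_le] at h1
    push_cast at h1
    have h2 : (k : ℝ) ≤ a := by linarith [h1.1]
    have h3 : (a : ℝ) ≤ k + 1 := by linarith [h1.2]
    have h2' : k ≤ a := by exact_mod_cast h2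
    have h3' : a ≤ k + 1 := by exact_mod_cast h3
    rcases Nat.lt_or_ge a (k + 1) with h4 | h4
    · left; exact ⟨Finset.mem_univ _, by omega⟩
    · right; exact ⟨Finset.mem_univ _, by omega⟩
  refine (Finset.card_le_card hsub).trans ((Finset.card_union_le _ _).trans ?_)
  rw [card_true, card_true]
  have h2 : (2 * k + 1).choose (k + 1) = (2 * k + 1).choose k := by
    apply Nat.choose_symm_of_eq_add; ring
  omega

/-! ### the orthonormal configuration -/

/-- signs of the block structure -/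
lemma eu_normsq {d : ℕ} (x : EuclideanSpace ℝ (Fin d)) : ‖x‖ ^ 2 = ∑ j, x j ^ 2 := by
  rw [EuclideanSpace.norm_sq_eq]
  simp

lemma odd_sum_sq (m : ℕ) (hm : Odd m) (δ : Fin m → Bool) :
    1 ≤ (∑ i, (if δ i then (1 : ℝ) else -1)) ^ 2 := by
  rw [sum_sign]
  set a := (univ.filter fun i => δ i = true).card
  obtain ⟨k, rfl⟩ := hm
  have h1 : (2 * (a : ℝ) - ((2 * k + 1 : ℕ) : ℝ)) = ((2 * (a : ℤ) - (2 * k + 1) : ℤ) : ℝ) := by
    push_cast; ring
  rw [h1]
  have h2 : (2 * (a : ℤ) - (2 * k + 1)) ≠ 0 := by omega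
  have h3 : 1 ≤ (2 * (a : ℤ) - (2 * k + 1)) ^ 2 := by
    have := Int.one_le_abs h2
    nlinarith [sq_abs (2 * (a : ℤ) - (2 * k + 1)), abs_nonneg (2 * (a : ℤ) - (2 * k + 1))]
  exact_mod_cast h3

/-- the configuration: `2k+1` copies of each basis vector -/
noncomputable def Vstd (d k : ℕ) : Fin (d * (2 * k + 1)) → EuclideanSpace ℝ (Fin d) :=
  fun i => EuclideanSpace.single (finProdFinEquiv.symm i).1 (1 : ℝ)

lemma Vstd_norm (d k : ℕ) (i) : ‖Vstd d k i‖ = 1 := by
  unfold Vstd; simp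

lemma signedSum_std (d k : ℕ) (ε : Fin (d * (2 * k + 1)) → Bool) (j : Fin d) :
    signedSum (Vstd d k) ε j = ∑ l : Fin (2 * k + 1), (if ε (finProdFinEquiv (j, l)) then (1 : ℝ) else -1) := by
  unfold signedSum
  have h0 : (∑ i, (if ε i then (1 : ℝ) else -1) • Vstd d k i) j
      = ∑ i, (if ε i then (1 : ℝ) else -1) * (if (finProdFinEquiv.symm i).1 = j then 1 else 0) := by
    simp only [WithLp.ofLp_sum, Finset.sum_apply]
    refine Finset.sum_congr rfl fun i _ => ?_
    rw [PiLp.smul_apply, smul_eq_mul]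
    congr 1
    unfold Vstd
    by_cases h : (finProdFinEquiv.symm i).1 = j
    · rw [h]; simp
    · rw [if_neg h, PiLp.single_apply, if_neg (fun h' => h h'.symm)]
  rw [h0, ← Equiv.sum_comp (finProdFinEquiv (m := d) (n := 2 * k + 1)), Fintype.sum_prod_type]
  simp only [Equiv.symm_apply_apply]
  rw [Finset.sum_eq_single j]
  · simp
  · intro b _ hb
    refine Finset.sum_eq_zero fun l _ => ?_
    rw [if_neg hb, mul_zero]
  · intro h; exact absurd (Finset.mem_univ _) h

lemma card_std (d k : ℕ) :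
    (univ.filter fun ε : Fin (d * (2 * k + 1)) → Bool =>
      ‖signedSum (Vstd d k) ε‖ ≤ Real.sqrt d).card ≤ (2 * (2 * k + 1).choose k) ^ d := by
  classical
  let B : Finset (Fin (2 * k + 1) → Bool) := univ.filter fun δ =>
      (∑ i, (if δ i then (1 : ℝ) else -1)) ^ 2 ≤ 1
  have hB : B.card ≤ 2 * (2 * k + 1).choose k := card_balanced k
  have h1 : (univ.filter fun ε : Fin (d * (2 * k + 1)) → Bool =>
      ‖signedSum (Vstd d k) ε‖ ≤ Real.sqrt d).card
      ≤ (Fintype.piFinset fun _ : Fin d => B).card := by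
    refine Finset.card_le_card_of_injOn (fun ε j l => ε (finProdFinEquiv (j, l))) ?_ ?_
    · intro ε hε
      rw [Finset.mem_coe, Finset.mem_filter] at hε
      rw [Finset.mem_coe, Fintype.mem_piFinset]
      have h2 : ∑ j, signedSum (Vstd d k) ε j ^ 2 ≤ d := by
        rw [← eu_normsq]
        have := hε.2
        calc _ ≤ Real.sqrt d ^ 2 := pow_le_pow_left₀ (norm_nonneg _) this 2
          _ = d := Real.sq_sqrt (Nat.cast_nonneg _)
      simp only [signedSum_std] at h2
      intro j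
      simp only [B, Finset.mem_filter, Finset.mem_univ, true_and]
      have h3 : ∀ j, 1 ≤ (∑ l : Fin (2 * k + 1), (if ε (finProdFinEquiv (j, l)) then (1 : ℝ) else -1)) ^ 2 :=
        fun j => odd_sum_sq _ ⟨k, rfl⟩ _
      have h4 : ∑ j, ((∑ l : Fin (2 * k + 1), (if ε (finProdFinEquiv (j, l)) then (1 : ℝ) else -1)) ^ 2 - 1) ≤ 0 := by
        rw [Finset.sum_sub_distrib]
        simp only [Finset.sum_const, Finset.card_univ, Fintype.card_fin, nsmul_eq_mul, mul_one]
        linarith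
      have h5 := (Finset.single_le_sum (f := fun j => (∑ l : Fin (2 * k + 1), (if ε (finProdFinEquiv (j, l)) then (1 : ℝ) else -1)) ^ 2 - 1)
        (fun j _ => by have := h3 j; linarith) (Finset.mem_univ j)).trans h4
      linarith
    · intro ε₁ _ ε₂ _ h
      ext i
      have h2 := congrFun (congrFun h (finProdFinEquiv.symm i).1) (finProdFinEquiv.symm i).2
      simp only [Prod.mk.eta, Equiv.apply_symm_apply] at h2
      rw [h2]
  refine h1.trans ?_
  rw [Fintype.card_piFinset]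
  simp only [Finset.prod_const, Finset.card_univ, Fintype.card_fin]
  exact Nat.pow_le_pow_left hB d

lemma prob_std (d k : ℕ) :
    ballProb (Vstd d k) (Real.sqrt d) ≤ (((2 * k + 1).choose k : ℝ) / 4 ^ k) ^ d := by
  classical
  unfold ballProb
  have h1 := card_std d k
  have h2 : ((univ.filter fun ε : Fin (d * (2 * k + 1)) → Bool =>
      ‖signedSum (Vstd d k) ε‖ ≤ Real.sqrt d).card : ℝ) ≤ (2 * ((2 * k + 1).choose k : ℝ)) ^ d := by
    exact_mod_cast h1
  have h3 : (2 : ℝ) ^ (d * (2 * k + 1)) = (2 * 4 ^ k) ^ d := by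
    rw [mul_comm d, pow_mul]
    congr 1
    rw [pow_succ, pow_mul]; norm_num; ring
  rw [h3, div_le_iff₀ (by positivity), ← mul_pow]
  refine le_of_le_of_eq ?_ (congrArg (fun x => x ^ d) (show 2 * ((2 * k + 1).choose k : ℝ) = ((2 * k + 1).choose k : ℝ) / 4 ^ k * (2 * 4 ^ k) by field_simp))
  convert h2

lemma F_le (d : ℕ) (n : ℕ) (r : ℝ) (V : Fin n → EuclideanSpace ℝ (Fin d)) (hV : ∀ i, ‖V i‖ = 1) :
    F d r n ≤ ballProb V r := by
  unfold F
  have hbdd : BddBelow (Set.range fun V : Fin n → Metric.sphere (0 : EuclideanSpace ℝ (Fin d)) 1 =>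
      ballProb (fun i => (V i : EuclideanSpace ℝ (Fin d))) r) := by
    refine ⟨0, ?_⟩
    rintro x ⟨V, rfl⟩
    unfold ballProb
    positivity
  exact ciInf_le hbdd (fun i => ⟨V i, by simp [hV i]⟩)

/-- non-asymptotic upper bound along `n = d(2k+1)` -/
theorem F_upper (d k : ℕ) (hd : 1 ≤ d) :
    ((d * (2 * k + 1) : ℕ) : ℝ) ^ ((d : ℝ) / 2) * F d (Real.sqrt d) (d * (2 * k + 1))
      ≤ (8 * d / Real.pi) ^ ((d : ℝ) / 2) := by
  have h1 := (F_le d _ (Real.sqrt d) (Vstd d k) (Vstd_norm d k)).trans (prob_std d k)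
  set c := ((2 * k + 1).choose k : ℝ) / 4 ^ k with hc
  have hc0 : 0 ≤ c := by positivity
  have h2 : c ^ d = (c ^ 2) ^ ((d : ℝ) / 2) := by
    rw [← Real.rpow_natCast c 2, ← Real.rpow_mul hc0, ← Real.rpow_natCast c d]
    congr 1
    push_cast; ring
  rw [h2] at h1
  calc ((d * (2 * k + 1) : ℕ) : ℝ) ^ ((d : ℝ) / 2) * F d (Real.sqrt d) (d * (2 * k + 1))
      ≤ ((d * (2 * k + 1) : ℕ) : ℝ) ^ ((d : ℝ) / 2) * (c ^ 2) ^ ((d : ℝ) / 2) :=
        mul_le_mul_of_nonneg_left h1 (by positivity)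
    _ = (((d * (2 * k + 1) : ℕ) : ℝ) * c ^ 2) ^ ((d : ℝ) / 2) := by
        rw [Real.mul_rpow (by positivity) (by positivity)]
    _ ≤ (8 * d / Real.pi) ^ ((d : ℝ) / 2) := by
        refine Real.rpow_le_rpow (by positivity) ?_ (by positivity)
        have h3 := choose_bound k
        have hdpos : (0:ℝ) ≤ d := Nat.cast_nonneg _
        push_cast
        calc (d : ℝ) * (2 * k + 1) * c ^ 2 = d * ((2 * k + 1) * c ^ 2) := by ring
          _ ≤ d * (8 / Real.pi) := mul_le_mul_of_nonneg_left h3 hdpos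
          _ = 8 * d / Real.pi := by ring

theorem f_upper (d : ℕ) (hd : 1 ≤ d) :
    f d (Real.sqrt d) ≤ (((8 * d / Real.pi) ^ ((d : ℝ) / 2) : ℝ) : EReal) := by
  refine (min_le_left _ _).trans ?_
  unfold f0
  let φ : ℕ → ℕ := fun k => d * (2 * k + 1)
  have hφ : Tendsto φ atTop (atTop ⊓ 𝓟 {n | n % 2 = d % 2}) := by
    rw [tendsto_inf]
    constructor
    · refine tendsto_atTop_mono (fun k => ?_) tendsto_id
      simp only [φ, id]
      nlinarith
    · rw [tendsto_principal]
      refine Eventually.of_forall fun k => ?_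
      change (d * (2 * k + 1)) % 2 = d % 2
      rw [Nat.mul_mod]
      have : (2 * k + 1) % 2 = 1 := by omega
      rw [this, mul_one, Nat.mod_mod]
  calc _ ≤ liminf (fun n : ℕ => (((n : ℝ) ^ ((d : ℝ) / 2) * F d (Real.sqrt d) n : ℝ) : EReal)) (map φ atTop) :=
        liminf_le_liminf_of_le hφ
    _ = liminf (fun k : ℕ => (((φ k : ℝ) ^ ((d : ℝ) / 2) * F d (Real.sqrt d) (φ k) : ℝ) : EReal)) atTop := rfl
    _ ≤ liminf (fun k : ℕ => (((8 * d / Real.pi) ^ ((d : ℝ) / 2) : ℝ) : EReal)) atTop := by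
        refine liminf_le_liminf (Eventually.of_forall fun k => ?_)
        exact EReal.coe_le_coe_iff.mpr (F_upper d k hd)
    _ = _ := liminf_const _

end MP087bf0

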