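import Pool.Agent.Lib.MP_087bf0.Perturb
import Pool.Agent.Lib.MP_087bf0.Upper

namespace MP087bf0

open Finset Filter Topology

variable {d n : ℕ}

/-- non-asymptotic lower bound, every system of vectors in the unit ball -/
theorem prob_lower (V : Fin n → EuclideanSpace ℝ (Fin d)) (hV : ∀ i, ‖V i‖ ≤ 1) (hn : d ≤ n) :
    (d.factorial : ℝ) / (8 * Real.pi ^ 2 * (n * d)) ^ ((d : ℝ) / 2) ≤ ballProb V (Real.sqrt d) := by
  classical
  let v : Fin n → Fin d → ℝ := fun i k => V i k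
  have hv : ∀ i, v i ⬝ᵥ v i ≤ 1 := by
    intro i
    have h1 : v i ⬝ᵥ v i = ‖V i‖ ^ 2 := by
      rw [eu_normsq, dotProduct]
      exact Finset.sum_congr rfl fun k _ => by simp only [v]; ring
    rw [h1]
    exact pow_le_one₀ (norm_nonneg _) (hV i)
  have hb := all_bound v hv hn
  have hcoord : ∀ ε : Fin n → Bool, ∀ k, signedSum V ε k = (∑ i, sg (ε i) • v i) k := by
    intro ε k
    unfold signedSum
    simp only [WithLp.ofLp_sum, Finset.sum_apply, Pi.smul_apply, PiLp.smul_apply, sg, v]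
  have hgood : ∀ ε : Fin n → Bool, Good v ε → ‖signedSum V ε‖ ≤ Real.sqrt d := by
    intro ε hε
    refine Real.le_sqrt_of_sq_le ?_
    rw [eu_normsq]
    unfold Good at hε
    rw [dotProduct] at hε
    calc ∑ k, signedSum V ε k ^ 2 = ∑ k, (∑ i, sg (ε i) • v i) k * (∑ i, sg (ε i) • v i) k := by
          refine Finset.sum_congr rfl fun k _ => ?_
          rw [hcoord]; ring
      _ ≤ d := hε
  have hcard : ((GoodSet v).card : ℝ) ≤ ballProb V (Real.sqrt d) * 2 ^ n := by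
    unfold ballProb
    rw [div_mul_cancel₀ _ (by positivity)]
    have : GoodSet v ⊆ univ.filter fun ε : Fin n → Bool => ‖signedSum V ε‖ ≤ Real.sqrt d := by
      intro ε hε
      unfold GoodSet at hε
      rw [Finset.mem_filter] at hε ⊢
      exact ⟨hε.1, hgood ε hε.2⟩
    have h2 := Finset.card_le_card this
    exact_mod_cast h2
  rcases Nat.eq_zero_or_pos d with rfl | hdpos
  · -- dimension zero: the probability is one
    have h1 : (1 : ℝ) * 2 ^ n ≤ (GoodSet v).card := by simpa using hb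
    have h2 := h1.trans hcard
    have h3 : (0:ℝ) < 2 ^ n := by positivity
    simpa using le_of_mul_le_mul_right h2 h3
  have hnpos : 0 < n := lt_of_lt_of_le hdpos hn
  have hd' : (0:ℝ) < d := by exact_mod_cast hdpos
  have hn' : (0:ℝ) < n := by exact_mod_cast hnpos
  have hpow : (Real.sqrt 8 * Real.pi * Real.sqrt (n * d)) ^ d
      = (8 * Real.pi ^ 2 * (n * d)) ^ ((d : ℝ) / 2) := by
    have h1 : Real.sqrt 8 * Real.pi * Real.sqrt (n * d) = (8 * Real.pi ^ 2 * (n * d)) ^ ((1 : ℝ) / 2) := by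
      rw [← Real.sqrt_eq_rpow, Real.sqrt_mul (by positivity : (0:ℝ) ≤ 8 * Real.pi ^ 2) ((n : ℝ) * d),
        Real.sqrt_mul (by norm_num : (0:ℝ) ≤ 8) (Real.pi ^ 2), Real.sqrt_sq Real.pi_pos.le]
    rw [h1, ← Real.rpow_natCast _ d, ← Real.rpow_mul (by positivity)]
    congr 1
    ring
  rw [hpow] at hb
  rw [div_le_iff₀ (by positivity)]
  have h3 : (0:ℝ) < 2 ^ n := by positivity
  refine le_of_mul_le_mul_right ?_ h3
  calc (d.factorial : ℝ) * 2 ^ n ≤ (GoodSet v).card * (8 * Real.pi ^ 2 * (n * d)) ^ ((d : ℝ) / 2) := hb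
    _ ≤ (ballProb V (Real.sqrt d) * 2 ^ n) * (8 * Real.pi ^ 2 * (n * d)) ^ ((d : ℝ) / 2) :=
        mul_le_mul_of_nonneg_right hcard (by positivity)
    _ = _ := by ring

theorem F_lower (hd : 1 ≤ d) (hn : d ≤ n) :
    (d.factorial : ℝ) / (8 * Real.pi ^ 2 * (n * d)) ^ ((d : ℝ) / 2) ≤ F d (Real.sqrt d) n := by
  unfold F
  have : Nonempty (Metric.sphere (0 : EuclideanSpace ℝ (Fin d)) 1) :=
    ⟨⟨EuclideanSpace.single (⟨0, hd⟩ : Fin d) (1:ℝ), by simp⟩⟩
  refine le_ciInf fun V => prob_lower _ (fun i => ?_) hn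
  have := (V i).2
  rw [mem_sphere_zero_iff_norm] at this
  exact this.le

/-- lower bound for the normalised quantity -/
theorem F_lower' (hd : 1 ≤ d) (hn : d ≤ n) :
    (d.factorial : ℝ) / (8 * Real.pi ^ 2 * d) ^ ((d : ℝ) / 2)
      ≤ (n : ℝ) ^ ((d : ℝ) / 2) * F d (Real.sqrt d) n := by
  have h1 := F_lower hd hn
  have hd' : (0:ℝ) < d := by exact_mod_cast hd
  have hn' : (0:ℝ) < n := by exact_mod_cast (lt_of_lt_of_le hd hn)
  have h2 : (8 * Real.pi ^ 2 * (n * d)) ^ ((d : ℝ) / 2)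
      = (n : ℝ) ^ ((d : ℝ) / 2) * (8 * Real.pi ^ 2 * d) ^ ((d : ℝ) / 2) := by
    rw [← Real.mul_rpow hn'.le (by positivity)]
    congr 1; ring
  rw [h2] at h1
  have h3 : (0:ℝ) < (n : ℝ) ^ ((d : ℝ) / 2) := by positivity
  calc (d.factorial : ℝ) / (8 * Real.pi ^ 2 * d) ^ ((d : ℝ) / 2)
      = (n : ℝ) ^ ((d : ℝ) / 2) * ((d.factorial : ℝ) / ((n : ℝ) ^ ((d : ℝ) / 2) * (8 * Real.pi ^ 2 * d) ^ ((d : ℝ) / 2))) := by
        have h4 : (0:ℝ) < (8 * Real.pi ^ 2 * d) ^ ((d : ℝ) / 2) := by positivity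
        field_simp
    _ ≤ _ := mul_le_mul_of_nonneg_left h1 h3.le

theorem f_lower (hd : 1 ≤ d) :
    (((d.factorial : ℝ) / (8 * Real.pi ^ 2 * d) ^ ((d : ℝ) / 2) : ℝ) : EReal) ≤ f d (Real.sqrt d) := by
  have key : ∀ S : Set ℕ, (((d.factorial : ℝ) / (8 * Real.pi ^ 2 * d) ^ ((d : ℝ) / 2) : ℝ) : EReal)
      ≤ liminf (fun n : ℕ => (((n : ℝ) ^ ((d : ℝ) / 2) * F d (Real.sqrt d) n : ℝ) : EReal))
        (atTop ⊓ 𝓟 S) := by
    intro S
    refine le_liminf_of_le ?_ ?_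
    · exact isCobounded_ge_of_top
    · have h1 : ∀ᶠ n : ℕ in atTop, d ≤ n := eventually_ge_atTop d
      have h2 : ∀ᶠ n : ℕ in atTop ⊓ 𝓟 S, d ≤ n := h1.filter_mono inf_le_left
      filter_upwards [h2] with n hn
      exact EReal.coe_le_coe_iff.mpr (F_lower' hd hn)
  exact le_min (key _) (key _)

lemma factorial_ge (d : ℕ) : ((d : ℝ) / Real.exp 1) ^ d ≤ d.factorial := by
  have h1 := Real.pow_div_factorial_le_exp (x := (d : ℝ)) (Nat.cast_nonneg d) d
  have h2 : (0:ℝ) < d.factorial := by exact_mod_cast Nat.factorial_pos d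
  rw [div_le_iff₀ h2] at h1
  rw [div_pow, div_le_iff₀ (by positivity), ← Real.exp_nat_mul, mul_one, mul_comm]
  exact h1

theorem f_lower' (hd : 1 ≤ d) :
    ((((d : ℝ) / (8 * Real.pi ^ 2 * Real.exp 2)) ^ ((d : ℝ) / 2) : ℝ) : EReal) ≤ f d (Real.sqrt d) := by
  refine le_trans (EReal.coe_le_coe_iff.mpr ?_) (f_lower hd)
  have hd' : (0:ℝ) < d := by exact_mod_cast hd
  have h1 : ((d : ℝ) / Real.exp 1) ^ d = ((d : ℝ) ^ 2 / Real.exp 2) ^ ((d : ℝ) / 2) := by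
    have h2 : (d : ℝ) ^ 2 / Real.exp 2 = ((d : ℝ) / Real.exp 1) ^ (2 : ℝ) := by
      rw [Real.rpow_two, div_pow, ← Real.exp_nat_mul]
      norm_num
    rw [h2, ← Real.rpow_mul (by positivity), ← Real.rpow_natCast _ d]
    congr 1
    ring
  have h3 : (0:ℝ) < (8 * Real.pi ^ 2 * d) ^ ((d : ℝ) / 2) := by positivity
  rw [le_div_iff₀ h3, ← Real.mul_rpow (by positivity) (by positivity)]
  refine le_trans (le_of_eq ?_) (factorial_ge d)
  rw [h1]
  congr 1
  field_simp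

/-- the order of magnitude of the critical small-ball constant -/
theorem main (d : ℕ) (hd : 2 ≤ d) :
    (∀ n : ℕ, d ≤ n →
      (d.factorial : ℝ) / (8 * Real.pi ^ 2 * (n * d)) ^ ((d : ℝ) / 2) ≤ F d (Real.sqrt d) n) ∧
    ((((d : ℝ) / (8 * Real.pi ^ 2 * Real.exp 2)) ^ ((d : ℝ) / 2) : ℝ) : EReal)
      ≤ f d (Real.sqrt d) ∧
    f d (Real.sqrt d) ≤ (((8 * d / Real.pi) ^ ((d : ℝ) / 2) : ℝ) : EReal) :=
  ⟨fun _ hn => F_lower (by omega) hn, f_lower' (by omega), f_upper d (by omega)⟩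

end MP087bf0
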