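import Pool.Agent.Lib.MP_087bf0.Cover

namespace MP087bf0

open Finset MeasureTheory ENNReal

variable {d n : ℕ}

lemma lintegral_fin_prod : ∀ {m : ℕ} (g : Fin m → ℝ → ℝ≥0∞), (∀ i, Measurable (g i)) →
    ∫⁻ x : Fin m → ℝ, ∏ i, g i (x i) = ∏ i, ∫⁻ x, g i x := by
  intro m
  induction m with
  | zero =>
    intro g _
    simp [volume_pi]
  | succ m ih =>
    intro g hg
    rw [← ((volume_preserving_piFinSuccAbove (fun _ : Fin (m + 1) => ℝ) 0).symm).lintegral_comp_emb
      (MeasurableEquiv.measurableEmbedding _)]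
    rw [Fin.prod_univ_succ, ← ih (fun i => g i.succ) (fun i => hg _)]
    simp only [MeasurableEquiv.piFinSuccAbove_symm_apply, Fin.insertNthEquiv,
            Fin.prod_univ_succ, Fin.insertNth_zero, Equiv.coe_fn_mk, Fin.cons_succ,
            Fin.zero_succAbove, cast_eq, Fin.cons_zero]
    have := lintegral_prod_mul (μ := (volume : Measure ℝ)) (ν := (volume : Measure (Fin m → ℝ)))
      (f := g 0) (g := fun x => ∏ i, g (Fin.succ i) (x i)) (hg 0).aemeasurable
      (Finset.aemeasurable_fun_prod _ fun i _ => ((hg i.succ).comp (measurable_pi_apply i)).aemeasurable)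
    exact this

lemma lintegral_fintype_prod {κ : Type*} [Fintype κ] (g : κ → ℝ → ℝ≥0∞)
    (hg : ∀ i, Measurable (g i)) :
    ∫⁻ x : κ → ℝ, ∏ i, g i (x i) = ∏ i, ∫⁻ x, g i x := by
  classical
  let e := (Fintype.equivFin κ).symm
  rw [← (volume_measurePreserving_piCongrLeft (fun _ : κ => ℝ) e).lintegral_comp_emb
    (MeasurableEquiv.measurableEmbedding _)]
  simp_rw [← e.prod_comp, MeasurableEquiv.coe_piCongrLeft, Equiv.piCongrLeft_apply_apply]
  exact lintegral_fin_prod (fun i => g (e i)) (fun i => hg _)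

/-- linear change of variables -/
lemma lintegral_mulVec (W : Matrix (Fin d) (Fin d) ℝ) (hW : W.det ≠ 0) (Ψ : (Fin d → ℝ) → ℝ≥0∞)
    (hΨ : Measurable Ψ) :
    ∫⁻ y, Ψ y = ENNReal.ofReal |W.det| * ∫⁻ l, Ψ (W.mulVec l) := by
  have h1 : ∫⁻ l, Ψ (W.mulVec l) = ∫⁻ y, Ψ y ∂(Measure.map (Matrix.toLin' W) volume) := by
    rw [lintegral_map hΨ (LinearMap.continuous_on_pi _).measurable]
    rfl
  rw [h1, Real.map_matrix_volume_pi_eq_smul_volume_pi hW, lintegral_smul_measure, smul_eq_mul,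
    ← mul_assoc, ← ENNReal.ofReal_mul (abs_nonneg _), ← abs_mul, mul_inv_cancel₀ hW, abs_one,
    ENNReal.ofReal_one, one_mul]

/-- splitting the coordinates along an injective tuple -/
lemma lintegral_split (s : Fin d → Fin n) (hs : Function.Injective s) (Φ : (Fin n → ℝ) → ℝ≥0∞)
    (hΦ : Measurable Φ) :
    ∃ glue : (Fin d → ℝ) → (((Set.range s)ᶜ : Set (Fin n)) → ℝ) → (Fin n → ℝ),
      (∀ y z j, glue y z (s j) = y j) ∧
      (∀ y z (i : ((Set.range s)ᶜ : Set (Fin n))), glue y z (i : Fin n) = z i) ∧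
      ∫⁻ c, Φ c = ∫⁻ y, ∫⁻ z, Φ (glue y z) := by
  classical
  let e : Fin d ⊕ ((Set.range s)ᶜ : Set (Fin n)) ≃ Fin n :=
    (Equiv.sumCongr (Equiv.ofInjective s hs) (Equiv.refl _)).trans (Equiv.Set.sumCompl (Set.range s))
  have he1 : ∀ j, e (Sum.inl j) = s j := fun j => by simp [e]
  have he2 : ∀ i : ((Set.range s)ᶜ : Set (Fin n)), e (Sum.inr i) = i := fun i => by
    simp only [e, Equiv.trans_apply, Equiv.sumCongr_apply, Sum.map_inr, Equiv.refl_apply]
    exact Equiv.Set.sumCompl_apply_inr _ _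
  refine ⟨fun y z i => Sum.elim y z (e.symm i), ?_, ?_, ?_⟩
  · intro y z j
    simp only
    rw [← he1 j, Equiv.symm_apply_apply]; rfl
  · intro y z i
    simp only
    conv_lhs => rw [← he2 i, Equiv.symm_apply_apply]
    rfl
  · rw [← (volume_measurePreserving_piCongrLeft (fun _ : Fin n => ℝ) e).lintegral_comp_emb
      (MeasurableEquiv.measurableEmbedding _)]
    rw [← (volume_measurePreserving_sumPiEquivProdPi_symm
      (fun _ : Fin d ⊕ ((Set.range s)ᶜ : Set (Fin n)) => ℝ)).lintegral_comp_emb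
      (MeasurableEquiv.measurableEmbedding _)]
    have hmeas : Measurable fun p : (Fin d → ℝ) × (((Set.range s)ᶜ : Set (Fin n)) → ℝ) =>
        Φ ((MeasurableEquiv.piCongrLeft (fun _ : Fin n => ℝ) e)
          ((MeasurableEquiv.sumPiEquivProdPi
            (fun _ : Fin d ⊕ ((Set.range s)ᶜ : Set (Fin n)) => ℝ)).symm p)) :=
      hΦ.comp ((MeasurableEquiv.measurable _).comp (MeasurableEquiv.measurable _))
    have h3 := lintegral_prod (μ := (volume : Measure (Fin d → ℝ)))
      (ν := (volume : Measure (((Set.range s)ᶜ : Set (Fin n)) → ℝ))) _ hmeas.aemeasurable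
    refine h3.trans ?_
    refine lintegral_congr fun y => lintegral_congr fun z => ?_
    congr 1
    ext i
    obtain ⟨a, rfl⟩ := e.surjective i
    simp only
    rw [Equiv.symm_apply_apply, MeasurableEquiv.coe_piCongrLeft, Equiv.piCongrLeft_apply_apply]
    cases a <;> rfl

end MP087bf0
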