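import Pool.Agent.Lib.MP_087bf0.Amgm

namespace MP087bf0

open Finset MeasureTheory ENNReal Filter Topology

variable {d n : ℕ}

/-- the counting bound for all systems in the unit ball -/
theorem all_bound (v : Fin n → Fin d → ℝ) (hv : ∀ i, v i ⬝ᵥ v i ≤ 1) (hn : d ≤ n) :
    (d.factorial : ℝ) * 2 ^ n ≤ (GoodSet v).card * (Real.sqrt 8 * Real.pi * Real.sqrt (n * d)) ^ d := by
  classical
  let E : Fin n → Fin d → ℝ := fun i k => if (i : ℕ) = k then 1 else 0
  let w : ℝ → Fin n → Fin d → ℝ := fun u i => (1 + u)⁻¹ • (v i + u • E i)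
  let s : Fin d → Fin n := Fin.castLE hn
  let A : Matrix (Fin d) (Fin d) ℝ := Wm v s
  -- the determinant
  have hdet : ∀ u : ℝ, (Wm (w u) s).det = (1 + u)⁻¹ ^ d * ((-A).charpoly.eval u) := by
    intro u
    have h1 : Wm (w u) s = (1 + u)⁻¹ • (Matrix.scalar (Fin d) u - (-A)) := by
      ext a b
      simp only [Wm, w, s, E, A, Matrix.smul_apply, Matrix.sub_apply, Matrix.neg_apply,
        Matrix.scalar_apply, Matrix.diagonal_apply, Pi.smul_apply, Pi.add_apply, smul_eq_mul,
        sub_neg_eq_add]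
      congr 1
      rw [add_comm]
      congr 1
      simp only [Fin.val_castLE]
      by_cases hab : a = b
      · subst hab; simp
      · have : (a : ℕ) ≠ b := fun h => hab (Fin.ext h)
        simp [this, hab]
    rw [h1, Matrix.det_smul, Fintype.card_fin, Matrix.eval_charpoly]
  -- norms
  have hE : ∀ i, E i ⬝ᵥ E i ≤ 1 := by
    intro i
    rw [dotProduct]
    by_cases hi : (i : ℕ) < d
    · rw [Finset.sum_eq_single (⟨i, hi⟩ : Fin d)]
      · simp [E]
      · intro b _ hb
        have : (i : ℕ) ≠ b := fun h => hb (Fin.ext h.symm)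
        simp [E, this]
      · intro h; exact absurd (Finset.mem_univ _) h
    · rw [Finset.sum_eq_zero]
      · norm_num
      · intro b _
        have : (i : ℕ) ≠ b := fun h => hi (by rw [h]; exact b.2)
        simp [E, this]
  have hnorm : ∀ u : ℝ, 0 < u → ∀ i, w u i ⬝ᵥ w u i ≤ 1 := by
    intro u hu i
    have hcs : v i ⬝ᵥ E i ≤ 1 := by
      have h0 : 0 ≤ (v i - E i) ⬝ᵥ (v i - E i) := by
        rw [dotProduct]; exact Finset.sum_nonneg fun k _ => mul_self_nonneg _
      simp only [dotProduct_sub, sub_dotProduct] at h0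
      rw [dotProduct_comm (E i) (v i)] at h0
      have := hv i
      have := hE i
      linarith
    simp only [w, dotProduct_smul, smul_dotProduct, smul_eq_mul, dotProduct_add, add_dotProduct]
    rw [dotProduct_comm (E i) (v i)]
    have h1 := hv i
    have h2 := hE i
    have h3 : (v i ⬝ᵥ v i + u * (v i ⬝ᵥ E i) + u * (v i ⬝ᵥ E i + u * (E i ⬝ᵥ E i))) ≤ (1 + u) * (1 + u) := by
      nlinarith [mul_le_mul_of_nonneg_left hcs hu.le, mul_le_mul_of_nonneg_left h2 (mul_nonneg hu.le hu.le)]
    have h4 : 0 < 1 + u := by linarith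
    have h5 : (1 + u)⁻¹ * ((1 + u)⁻¹ * ((1 + u) * (1 + u))) = 1 := by field_simp
    have h6 : 0 ≤ (1 + u)⁻¹ := by positivity
    have h7 := mul_le_mul_of_nonneg_left (mul_le_mul_of_nonneg_left h3 h6) h6
    rw [h5] at h7
    refine le_trans (le_of_eq ?_) h7
    ring
  -- eventually nonzero determinant
  have hev1 : ∀ᶠ u in 𝓝[>] (0:ℝ), (-A).charpoly.eval u ≠ 0 := by
    have hfin : {u : ℝ | (-A).charpoly.eval u = 0}.Finite := by
      refine Set.Finite.subset ((-A).charpoly.roots.toFinset.finite_toSet) ?_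
      intro u hu
      simp only [Finset.mem_coe, Multiset.mem_toFinset]
      exact (Polynomial.mem_roots (Matrix.charpoly_monic _).ne_zero).mpr hu
    have h1 : {u : ℝ | (-A).charpoly.eval u = 0}ᶜ ∈ Filter.cofinite := hfin.compl_mem_cofinite
    have h2 : {u : ℝ | (-A).charpoly.eval u = 0}ᶜ ∈ 𝓝[≠] (0:ℝ) := nhdsNE_le_cofinite 0 h1
    have h3 : Set.Ioi (0:ℝ) ⊆ {0}ᶜ := fun x hx => ne_of_gt (Set.mem_Ioi.mp hx)
    exact nhdsWithin_mono (0:ℝ) h3 h2
  -- eventually bad signings remain bad
  have hev2 : ∀ᶠ u in 𝓝[>] (0:ℝ), ∀ ε : Fin n → Bool, ¬ Good v ε → ¬ Good (w u) ε := by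
    rw [eventually_all]
    intro ε
    by_cases hg : Good v ε
    · exact Eventually.of_forall fun u h => absurd hg h
    · have hcont : ContinuousAt (fun u : ℝ => (∑ i, sg (ε i) • w u i) ⬝ᵥ (∑ i, sg (ε i) • w u i)) 0 := by
        have h1 : ∀ i, ContinuousAt (fun u : ℝ => w u i) 0 := by
          intro i
          have ha : ContinuousAt (fun u : ℝ => (1 + u)⁻¹) 0 :=
            ContinuousAt.inv₀ (continuousAt_const.add continuousAt_id) (by norm_num)
          have hb : ContinuousAt (fun u : ℝ => v i + u • E i) 0 :=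
            continuousAt_const.add (continuousAt_id.smul continuousAt_const)
          exact ha.smul hb
        have h2 : ContinuousAt (fun u : ℝ => ∑ i, sg (ε i) • w u i) 0 := by
          refine tendsto_finsetSum _ fun i _ => ?_
          exact Tendsto.const_smul (h1 i) (sg (ε i))
        have h3 : Continuous fun p : Fin d → ℝ => p ⬝ᵥ p := by fun_prop
        exact h3.continuousAt.comp h2
      have h0 : w 0 = v := by
        ext i k; simp [w]
      have hlt : (d : ℝ) < (∑ i, sg (ε i) • w 0 i) ⬝ᵥ (∑ i, sg (ε i) • w 0 i) := by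
        rw [h0]
        unfold Good at hg
        push Not at hg
        exact hg
      have h4 := hcont.eventually (lt_mem_nhds hlt)
      have h5 := h4.filter_mono (nhdsWithin_le_nhds (s := Set.Ioi (0:ℝ)))
      filter_upwards [h5] with u hu _ hgood
      unfold Good at hgood
      exact absurd hgood (not_le.mpr hu)
  have hev3 : ∀ᶠ u in 𝓝[>] (0:ℝ), 0 < u := self_mem_nhdsWithin
  obtain ⟨u, h1, h2, h3⟩ := (hev1.and (hev2.and hev3)).exists
  have hspan : ∃ s : Fin d → Fin n, (Wm (w u) s).det ≠ 0 := by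
    refine ⟨s, ?_⟩
    rw [hdet]
    exact mul_ne_zero (pow_ne_zero _ (inv_ne_zero (by linarith))) h1
  have hb := span_bound (w u) (hnorm u h3) hspan
  refine hb.trans ?_
  refine mul_le_mul_of_nonneg_right ?_ (by positivity)
  have hsub : GoodSet (w u) ⊆ GoodSet v := by
    intro ε hε
    unfold GoodSet at hε ⊢
    rw [Finset.mem_filter] at hε ⊢
    refine ⟨Finset.mem_univ _, ?_⟩
    by_contra hc
    exact h2 ε hc hε.2
  exact_mod_cast Finset.card_le_card hsub

end MP087bf0
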