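import Mathlib

namespace MP087bf0

open Finset

/-- the sign of a Boolean -/
def sg (b : Bool) : ℝ := if b then 1 else -1

lemma sg_cases (b : Bool) : sg b = 1 ∨ sg b = -1 := by
  cases b <;> simp [sg]

lemma sg_sq (b : Bool) : sg b * sg b = 1 := by
  cases b <;> simp [sg]

variable {d : ℕ}

/-- one rounding step -/
lemma round_step (q u : Fin d → ℝ) (x : ℝ) (hx : |x| ≤ 1) :
    ∃ b : Bool, (q + (sg b - x) • u) ⬝ᵥ (q + (sg b - x) • u) ≤ q ⬝ᵥ q + (1 - x ^ 2) * (u ⬝ᵥ u) := by
  have hexp : ∀ t : ℝ, (q + t • u) ⬝ᵥ (q + t • u) = q ⬝ᵥ q + 2 * t * (q ⬝ᵥ u) + t ^ 2 * (u ⬝ᵥ u) := by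
    intro t
    simp only [dotProduct_add, add_dotProduct, dotProduct_smul, smul_dotProduct, smul_eq_mul]
    rw [dotProduct_comm u q]
    ring
  obtain ⟨h1, h2⟩ := abs_le.mp hx
  by_contra hcon
  push Not at hcon
  have ht := hcon true
  have hf := hcon false
  rw [hexp] at ht hf
  simp only [sg] at ht hf
  simp only [if_true] at ht
  norm_num at hf
  have e1 : 0 ≤ (1 + x) / 2 := by linarith
  have e2 : 0 ≤ (1 - x) / 2 := by linarith
  nlinarith [mul_nonneg e1 (le_of_lt (sub_pos.mpr ht)), mul_nonneg e2 (le_of_lt (sub_pos.mpr hf))]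

/-- rounding all coordinates in a finite set -/
lemma round_all {κ : Type*} [DecidableEq κ] (u : κ → Fin d → ℝ) (x : κ → ℝ) (hx : ∀ j, |x j| ≤ 1)
    (U : Finset κ) : ∀ b : Fin d → ℝ, ∃ δ : κ → Bool,
      (b + ∑ j ∈ U, sg (δ j) • u j) ⬝ᵥ (b + ∑ j ∈ U, sg (δ j) • u j)
        ≤ (b + ∑ j ∈ U, x j • u j) ⬝ᵥ (b + ∑ j ∈ U, x j • u j)
          + ∑ j ∈ U, (1 - x j ^ 2) * (u j ⬝ᵥ u j) := by
  induction U using Finset.induction_on with
  | empty => intro b; exact ⟨fun _ => true, by simp⟩
  | insert a U ha ih =>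
    intro b
    obtain ⟨σ, hσ⟩ := round_step (b + ∑ j ∈ insert a U, x j • u j) (u a) (x a) (hx a)
    obtain ⟨δ, hδ⟩ := ih (b + sg σ • u a)
    refine ⟨Function.update δ a σ, ?_⟩
    have e1 : b + ∑ j ∈ insert a U, sg (Function.update δ a σ j) • u j
        = (b + sg σ • u a) + ∑ j ∈ U, sg (δ j) • u j := by
      rw [Finset.sum_insert ha, Function.update_self, ← add_assoc]
      congr 1
      refine Finset.sum_congr rfl fun j hj => ?_
      rw [Function.update_of_ne (by rintro rfl; exact ha hj)]
    have e2 : (b + sg σ • u a) + ∑ j ∈ U, x j • u j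
        = (b + ∑ j ∈ insert a U, x j • u j) + (sg σ - x a) • u a := by
      rw [Finset.sum_insert ha, sub_smul]
      abel
    rw [e1]
    rw [e2] at hδ
    rw [Finset.sum_insert ha (f := fun j => (1 - x j ^ 2) * (u j ⬝ᵥ u j))]
    linarith

/-- the weighted median is attained at a data point (one direction) -/
lemma median_step {ι : Type*} (T : Finset ι) (r m : ι → ℝ) (hr : ∀ i ∈ T, r i ≠ 0)
    (h : 1 < ∑ i ∈ T, sg (decide (0 < r i)) * m i) :
    ∃ i ∈ T, m i ≠ 0 ∧ 0 < r i / m i ∧
      r i / m i + ∑ k ∈ T, |r k - r i / m i * m k| < ∑ k ∈ T, |r k| := by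
  classical
  have habs : ∀ k ∈ T, sg (decide (0 < r k)) * r k = |r k| := by
    intro k hk
    rcases lt_or_gt_of_ne (hr k hk) with h0 | h0
    · have : ¬ (0 < r k) := not_lt.mpr h0.le
      simp [sg, this, abs_of_neg h0]
    · simp [sg, h0, abs_of_pos h0]
  have hpos : ∀ k ∈ T, (0 < r k / m k ↔ 0 < sg (decide (0 < r k)) * m k) := by
    intro k hk
    rcases lt_or_gt_of_ne (hr k hk) with h0 | h0
    · have : ¬ (0 < r k) := not_lt.mpr h0.le
      simp only [sg, this, decide_false, Bool.false_eq_true, if_false, neg_mul, one_mul, Left.neg_pos_iff]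
      constructor
      · intro h; 
        rcases div_pos_iff.mp h with h1 | h1
        · linarith [h1.1]
        · exact h1.2
      · intro h; exact div_pos_of_neg_of_neg h0 h
    · simp only [sg, h0, decide_true, if_true, one_mul]
      constructor
      · intro h
        rcases div_pos_iff.mp h with h1 | h1
        · exact h1.2
        · linarith [h1.1]
      · intro h; exact div_pos h0 h
  -- the set of positive breakpoints
  set P := T.filter (fun i => 0 < r i / m i) with hP
  have hPne : P.Nonempty := by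
    by_contra hne
    rw [Finset.not_nonempty_iff_eq_empty] at hne
    have : ∑ i ∈ T, sg (decide (0 < r i)) * m i ≤ 0 := by
      refine Finset.sum_nonpos fun k hk => ?_
      by_contra hc
      push Not at hc
      have : k ∈ P := by
        rw [hP, Finset.mem_filter]
        exact ⟨hk, (hpos k hk).mpr hc⟩
      rw [hne] at this
      simp at this
    linarith
  obtain ⟨i, hiP, himin⟩ := Finset.exists_min_image P (fun i => r i / m i) hPne
  rw [hP, Finset.mem_filter] at hiP
  obtain ⟨hiT, hit⟩ := hiP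
  have hmi : m i ≠ 0 := by
    intro h0
    rw [h0, div_zero] at hit
    exact lt_irrefl _ hit
  refine ⟨i, hiT, hmi, hit, ?_⟩
  set t := r i / m i with ht
  have key : ∀ k ∈ T, |r k - t * m k| = |r k| - t * (sg (decide (0 < r k)) * m k) := by
    intro k hk
    have e : sg (decide (0 < r k)) * (r k - t * m k) = |r k| - t * (sg (decide (0 < r k)) * m k) := by
      rw [← habs k hk]; ring
    have hnn : 0 ≤ |r k| - t * (sg (decide (0 < r k)) * m k) := by
      by_cases hc : 0 < sg (decide (0 < r k)) * m k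
      · have hkP : k ∈ P := by
          rw [hP, Finset.mem_filter]
          exact ⟨hk, (hpos k hk).mpr hc⟩
        have hle := himin k hkP
        have hmk : m k ≠ 0 := by
          intro h0; rw [h0] at hc; simp at hc
        have : |r k| = r k / m k * (sg (decide (0 < r k)) * m k) := by
          rw [← habs k hk]; field_simp
        rw [this, ← sub_mul]
        exact mul_nonneg (by simpa using sub_nonneg.mpr hle) hc.le
      · push Not at hc
        have h3 : 0 ≤ |r k| := abs_nonneg _
        nlinarith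
    have habs2 : |sg (decide (0 < r k)) * (r k - t * m k)| = |r k - t * m k| := by
      rw [abs_mul]
      rcases sg_cases (decide (0 < r k)) with h1 | h1 <;> rw [h1] <;> simp
    rw [← habs2, e, abs_of_nonneg hnn]
  rw [Finset.sum_congr rfl key, Finset.sum_sub_distrib, ← Finset.mul_sum]
  nlinarith

end MP087bf0
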